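import Mathlib

/-!
The global argument: spans of homogeneous polynomials over a field of degree zero fractions.
-/

namespace Pool.Agent.Lib.MPbca609

open MvPolynomial

attribute [local instance] MvPolynomial.gradedAlgebra

theorem homogeneousComponent_mul_left {σ k : Type*} [CommRing k] {p : MvPolynomial σ k} {e : ℕ}
    (hp : p.IsHomogeneous e) (f : MvPolynomial σ k) (n : ℕ) :
    homogeneousComponent (e + n) (p * f) = p * homogeneousComponent n f := by
  have := DirectSum.coe_decompose_mul_add_of_left_mem (homogeneousSubmodule σ k) (a := p) (b := f)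
    (i := e) (j := n) hp
  have h1 : ∀ (φ : MvPolynomial σ k) (i : ℕ),
      ((DirectSum.decompose (homogeneousSubmodule σ k) φ i : MvPolynomial σ k)) =
        homogeneousComponent i φ := fun φ i => decomposition.decompose'_apply φ i
  rw [h1, h1] at this
  exact this

theorem homogeneousComponent_mul_right {σ k : Type*} [CommRing k] {p : MvPolynomial σ k} {e : ℕ}
    (hp : p.IsHomogeneous e) (f : MvPolynomial σ k) (n : ℕ) :
    homogeneousComponent (n + e) (f * p) = homogeneousComponent n f * p := by
  rw [mul_comm f p, add_comm n e, homogeneousComponent_mul_left hp, mul_comm]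

section

variable {σ k Ω : Type*} [Field k] [Field Ω] [Algebra (MvPolynomial σ k) Ω]

/-- The field of homogeneous fractions of degree zero. -/
def homFrac (σ k Ω : Type*) [Field k] [Field Ω] [Algebra (MvPolynomial σ k) Ω]
    (hinj : Function.Injective (algebraMap (MvPolynomial σ k) Ω)) : Subfield Ω where
  carrier := {κ | ∃ (e : ℕ) (p q : MvPolynomial σ k), p.IsHomogeneous e ∧ q.IsHomogeneous e ∧
    q ≠ 0 ∧ κ * algebraMap _ Ω q = algebraMap _ Ω p}
  mul_mem' := by
    rintro a b ⟨e, p, q, hp, hq, hq0, h⟩ ⟨e', p', q', hp', hq', hq0', h'⟩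
    refine ⟨e + e', p * p', q * q', hp.mul hp', hq.mul hq', mul_ne_zero hq0 hq0', ?_⟩
    rw [map_mul, map_mul, ← h, ← h']; ring
  one_mem' := ⟨0, 1, 1, isHomogeneous_one _ _, isHomogeneous_one _ _, one_ne_zero, by simp⟩
  add_mem' := by
    rintro a b ⟨e, p, q, hp, hq, hq0, h⟩ ⟨e', p', q', hp', hq', hq0', h'⟩
    refine ⟨e + e', p * q' + q * p', q * q', (hp.mul hq').add (hq.mul hp'), hq.mul hq',
      mul_ne_zero hq0 hq0', ?_⟩
    rw [map_mul, map_add, map_mul, map_mul, ← h, ← h']; ring
  zero_mem' := ⟨0, 0, 1, isHomogeneous_zero _ _ _, isHomogeneous_one _ _, one_ne_zero, by simp⟩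
  neg_mem' := by
    rintro a ⟨e, p, q, hp, hq, hq0, h⟩
    exact ⟨e, -p, q, hp.neg, hq, hq0, by rw [map_neg, ← h]; ring⟩
  inv_mem' := by
    rintro a ⟨e, p, q, hp, hq, hq0, h⟩
    by_cases hp0 : p = 0
    · have ha : a = 0 := by
        rw [hp0, map_zero] at h
        rcases mul_eq_zero.1 h with h | h
        · exact h
        · exact absurd (hinj (by rw [h, map_zero])) hq0
      refine ⟨0, 0, 1, isHomogeneous_zero _ _ _, isHomogeneous_one _ _, one_ne_zero, ?_⟩
      rw [ha]; simp
    · have hpΩ : algebraMap (MvPolynomial σ k) Ω p ≠ 0 := fun h0 =>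
        hp0 (hinj (by rw [h0, map_zero]))
      have ha : a ≠ 0 := by
        rintro rfl
        rw [zero_mul] at h
        exact hpΩ h.symm
      refine ⟨e, q, p, hq, hp, hp0, ?_⟩
      rw [← h]; field_simp

/-- The span of homogeneous polynomials of degree `n`. -/
def B (k' : Subfield Ω) (n : ℕ) : Submodule k' Ω :=
  Submodule.span k' (algebraMap (MvPolynomial σ k) Ω '' {f | f.IsHomogeneous n})

theorem exists_homogeneous_form (hinj : Function.Injective (algebraMap (MvPolynomial σ k) Ω))
    (k' : Subfield Ω) (hk' : k' ≤ homFrac σ k Ω hinj) (y : Ω)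
    (hy : y ∈ Submodule.span k' (Set.range (algebraMap (MvPolynomial σ k) Ω))) :
    ∃ (e : ℕ) (r F : MvPolynomial σ k), r.IsHomogeneous e ∧ r ≠ 0 ∧
      algebraMap _ Ω r * y = algebraMap _ Ω F ∧
      ∀ n, ∃ b ∈ B (σ := σ) (k := k) k' n,
        algebraMap _ Ω r * b = algebraMap _ Ω (homogeneousComponent (e + n) F) := by
  induction hy using Submodule.span_induction with
  | mem x hx =>
    obtain ⟨f, rfl⟩ := hx
    refine ⟨0, 1, f, isHomogeneous_one _ _, one_ne_zero, by simp, fun n => ?_⟩
    refine ⟨algebraMap _ Ω (homogeneousComponent n f),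
      Submodule.subset_span ⟨_, homogeneousComponent_isHomogeneous n f, rfl⟩, by simp⟩
  | zero =>
    exact ⟨0, 1, 0, isHomogeneous_one _ _, one_ne_zero, by simp,
      fun n => ⟨0, Submodule.zero_mem _, by simp⟩⟩
  | add x y _ _ ihx ihy =>
    obtain ⟨e, r, F, hr, hr0, hF, hB⟩ := ihx
    obtain ⟨e', r', F', hr', hr0', hF', hB'⟩ := ihy
    refine ⟨e + e', r * r', F * r' + r * F', hr.mul hr', mul_ne_zero hr0 hr0', ?_, fun n => ?_⟩
    · rw [map_mul, map_add, map_mul, map_mul, ← hF, ← hF']; ring
    · obtain ⟨b, hb, hb'⟩ := hB n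
      obtain ⟨c, hc, hc'⟩ := hB' n
      refine ⟨b + c, Submodule.add_mem _ hb hc, ?_⟩
      have h1 : homogeneousComponent (e + e' + n) (F * r') = homogeneousComponent (e + n) F * r' := by
        have : e + e' + n = (e + n) + e' := by ring
        rw [this, homogeneousComponent_mul_right hr']
      have h2 : homogeneousComponent (e + e' + n) (r * F') = r * homogeneousComponent (e' + n) F' := by
        rw [add_assoc, homogeneousComponent_mul_left hr]
      rw [map_add, h1, h2, map_add, map_mul, map_mul, map_mul, ← hb', ← hc']; ring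
  | smul a x _ ih =>
    obtain ⟨e, r, F, hr, hr0, hF, hB⟩ := ih
    obtain ⟨e', p, q, hp, hq, hq0, ha⟩ := hk' a.2
    refine ⟨e' + e, q * r, p * F, hq.mul hr, mul_ne_zero hq0 hr0, ?_, fun n => ?_⟩
    · rw [map_mul, map_mul, ← hF, ← ha]
      show _ * ((a : Ω) * x) = _
      ring
    · obtain ⟨b, hb, hb'⟩ := hB n
      refine ⟨a • b, Submodule.smul_mem _ _ hb, ?_⟩
      rw [add_assoc, homogeneousComponent_mul_left hp, map_mul, map_mul, ← hb', ← ha]
      show _ * ((a : Ω) * b) = _
      ring

theorem mem_B_of_mem_span (hinj : Function.Injective (algebraMap (MvPolynomial σ k) Ω))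
    (k' : Subfield Ω) (hk' : k' ≤ homFrac σ k Ω hinj) (y : Ω)
    (hy : y ∈ Submodule.span k' (Set.range (algebraMap (MvPolynomial σ k) Ω)))
    (P Q : MvPolynomial σ k) (q n : ℕ) (hQ : Q.IsHomogeneous q) (hQ0 : Q ≠ 0)
    (hP : P.IsHomogeneous (q + n)) (h : algebraMap _ Ω Q * y = algebraMap _ Ω P) :
    y ∈ B (σ := σ) (k := k) k' n := by
  obtain ⟨e, r, F, hr, hr0, hF, hB⟩ := exists_homogeneous_form hinj k' hk' y hy
  obtain ⟨b, hb, hb'⟩ := hB n
  have h1 : Q * F = r * P := by
    apply hinj
    rw [map_mul, map_mul, ← hF, ← h]; ring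
  have h2 : Q * homogeneousComponent (e + n) F = Q * F := by
    rw [← homogeneousComponent_mul_left hQ, h1]
    refine homogeneousComponent_eq_self ?_
    have := hr.mul hP
    have e1 : e + (q + n) = q + (e + n) := by ring
    rwa [e1] at this
  have h3 : homogeneousComponent (e + n) F = F := mul_left_cancel₀ hQ0 h2
  have hrΩ : algebraMap (MvPolynomial σ k) Ω r ≠ 0 := fun h0 => hr0 (hinj (by rw [h0, map_zero]))
  have : y = b := by
    apply mul_left_cancel₀ hrΩ
    rw [hF, hb', h3]
  rw [this]; exact hb

theorem B_fg [Finite σ] (k' : Subfield Ω)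
    (hk : ∀ c : k, algebraMap (MvPolynomial σ k) Ω (C c) ∈ k') (n : ℕ) :
    (B (σ := σ) (k := k) k' n).FG := by
  classical
  obtain ⟨T, hT⟩ := homogeneousSubmodule_fg σ k n
  refine ⟨T.image (algebraMap (MvPolynomial σ k) Ω), ?_⟩
  apply le_antisymm
  · refine Submodule.span_mono ?_
    intro x hx
    simp only [Finset.coe_image, Set.mem_image, Finset.mem_coe] at hx
    obtain ⟨f, hf, rfl⟩ := hx
    refine ⟨f, ?_, rfl⟩
    have : f ∈ homogeneousSubmodule σ k n := by
      rw [← hT]; exact Submodule.subset_span hf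
    exact this
  · refine Submodule.span_le.2 ?_
    rintro _ ⟨f, hf, rfl⟩
    have hf' : f ∈ Submodule.span k (T : Set (MvPolynomial σ k)) := by rw [hT]; exact hf
    show algebraMap _ Ω f ∈ _
    induction hf' using Submodule.span_induction with
    | mem x hx => exact Submodule.subset_span (by
        simp only [Finset.coe_image]; exact ⟨x, hx, rfl⟩)
    | zero => rw [map_zero]; exact Submodule.zero_mem _
    | add x y hx hy ihx ihy =>
      rw [map_add]
      refine Submodule.add_mem _ (ihx ?_) (ihy ?_)
      · have : x ∈ homogeneousSubmodule σ k n := by rw [← hT]; exact hx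
        exact this
      · have : y ∈ homogeneousSubmodule σ k n := by rw [← hT]; exact hy
        exact this
    | smul a x hx ihx =>
      rw [smul_eq_C_mul, map_mul]
      refine Submodule.smul_mem _ (⟨_, hk a⟩ : k') (ihx ?_)
      have : x ∈ homogeneousSubmodule σ k n := by rw [← hT]; exact hx
      exact this

/-- If all `x ^ α W` of large degree lie in the span, then `x_j W` is integral. -/
theorem isIntegral_X_mul [Finite σ] [Nonempty σ]
    (hinj : Function.Injective (algebraMap (MvPolynomial σ k) Ω))
    (k' : Subfield Ω) (hk' : k' ≤ homFrac σ k Ω hinj)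
    (hk : ∀ c : k, algebraMap (MvPolynomial σ k) Ω (C c) ∈ k')
    (W : Ω) (P Q : MvPolynomial σ k) (q : ℕ) (hQ : Q.IsHomogeneous (q + 1)) (hQ0 : Q ≠ 0)
    (hP : P.IsHomogeneous q) (h : algebraMap _ Ω Q * W = algebraMap _ Ω P)
    (N : ℕ) (hN : ∀ j : σ, algebraMap (MvPolynomial σ k) Ω (X j ^ N) * W ∈
      Submodule.span k' (Set.range (algebraMap (MvPolynomial σ k) Ω))) (j : σ) :
    IsIntegral k' (algebraMap (MvPolynomial σ k) Ω (X j) * W) := by
  classical
  have := Fintype.ofFinite σ
  -- multiplication by polynomials preserves the span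
  have hmul : ∀ (f : MvPolynomial σ k) (y : Ω),
      y ∈ Submodule.span k' (Set.range (algebraMap (MvPolynomial σ k) Ω)) →
      algebraMap _ Ω f * y ∈ Submodule.span k' (Set.range (algebraMap (MvPolynomial σ k) Ω)) := by
    intro f y hy
    induction hy using Submodule.span_induction with
    | mem x hx =>
      obtain ⟨g, rfl⟩ := hx
      rw [← map_mul]; exact Submodule.subset_span ⟨_, rfl⟩
    | zero => rw [mul_zero]; exact Submodule.zero_mem _
    | add x y _ _ ihx ihy => rw [mul_add]; exact Submodule.add_mem _ ihx ihy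
    | smul a x _ ih =>
      rw [mul_smul_comm]; exact Submodule.smul_mem _ _ ih
  -- large monomials
  let n : ℕ := Fintype.card σ * N
  have hmon : ∀ m : σ →₀ ℕ, m.degree = n →
      algebraMap _ Ω (X j * monomial m (1 : k)) * W ∈ B (σ := σ) (k := k) k' n := by
    intro m hm
    refine mem_B_of_mem_span hinj k' hk' _ ?_ (X j * monomial m 1 * P) Q (q + 1) n hQ hQ0 ?_ ?_
    · -- some exponent is at least N
      obtain ⟨i, hi⟩ : ∃ i, N ≤ m i := by
        by_contra hcon
        push Not at hcon
        have h1 : m.degree = ∑ i, m i := by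
          rw [Finsupp.degree_apply]
          exact Finset.sum_subset (Finset.subset_univ _) (fun i _ hi => by simpa using hi)
        have h2 : ∑ i : σ, m i < ∑ _i : σ, N :=
          Finset.sum_lt_sum_of_nonempty Finset.univ_nonempty (fun i _ => hcon i)
        rw [Finset.sum_const, smul_eq_mul, Finset.card_univ] at h2
        have h3 : n = Fintype.card σ * N := rfl
        omega
      have h4 : monomial m (1 : k) = monomial (m - Finsupp.single i N) 1 * X i ^ N := by
        rw [X_pow_eq_monomial, monomial_mul, one_mul]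
        have e2 : m = (m - Finsupp.single i N) + Finsupp.single i N := by
          ext l
          simp only [Finsupp.coe_add, Finsupp.coe_tsub, Pi.add_apply, Pi.sub_apply]
          by_cases hl : i = l
          · subst hl; simp; omega
          · rw [Finsupp.single_eq_of_ne' hl]; omega
        rw [← e2]
      rw [h4, ← mul_assoc, map_mul, mul_assoc]
      exact hmul _ _ (hN i)
    · have h5 : (X j * monomial m (1 : k) * P).IsHomogeneous ((1 + n) + q) :=
        ((isHomogeneous_X _ _).mul (isHomogeneous_monomial _ hm)).mul hP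
      have e1 : (1 + n) + q = q + 1 + n := by ring
      rwa [e1] at h5
    · rw [map_mul _ _ P, ← h]; ring
  refine isIntegral_of_smul_mem_submodule (B (σ := σ) (k := k) k' n) ?_ (B_fg k' hk n) _ ?_
  · intro hbot
    have h1 : algebraMap (MvPolynomial σ k) Ω (X j ^ n) ∈ B (σ := σ) (k := k) k' n :=
      Submodule.subset_span ⟨_, isHomogeneous_X_pow _ _, rfl⟩
    rw [hbot, Submodule.mem_bot] at h1
    have h2 : (X j ^ n : MvPolynomial σ k) = 0 := hinj (by rw [h1, map_zero])
    exact pow_ne_zero n (X_ne_zero j) h2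
  · intro y hy
    rw [smul_eq_mul]
    unfold B at hy
    induction hy using Submodule.span_induction with
    | mem x hx =>
      obtain ⟨f, hf, rfl⟩ := hx
      -- decompose f into monomials
      have hf' : f = ∑ m ∈ f.support, C (coeff m f) * monomial m 1 := by
        conv_lhs => rw [f.as_sum]
        refine Finset.sum_congr rfl fun m _ => ?_
        rw [C_mul_monomial, mul_one]
      rw [hf', map_sum, Finset.mul_sum]
      refine Submodule.sum_mem _ fun m hm => ?_
      have hdeg : m.degree = n := by
        by_contra hne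
        exact (mem_support_iff.1 hm) (hf.coeff_eq_zero hne)
      have h6 : algebraMap (MvPolynomial σ k) Ω (X j) * W *
          algebraMap _ Ω (C (coeff m f) * monomial m 1) =
          (⟨_, hk (coeff m f)⟩ : k') • (algebraMap _ Ω (X j * monomial m (1 : k)) * W) := by
        show _ = algebraMap _ Ω (C (coeff m f)) * _
        rw [map_mul, map_mul]; ring
      rw [h6]
      exact Submodule.smul_mem _ _ (hmon m hdeg)
    | zero => rw [mul_zero]; exact Submodule.zero_mem _
    | add x y _ _ ihx ihy => rw [mul_add]; exact Submodule.add_mem _ ihx ihy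
    | smul a x _ ih =>
      rw [mul_smul_comm]; exact Submodule.smul_mem _ _ ih

end

end Pool.Agent.Lib.MPbca609
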