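import Mathlib
import Pool.Agent.Lib.MP_bca609_ag.Global1

/-!
The transcendence degree argument.
-/

namespace Pool.Agent.Lib.MPbca609

open MvPolynomial

/-- If `x_j W` is algebraic over `k(c₀, c₁)` for all variables `x_j`, and `W ≠ 0`, then there are
at most three variables. -/
theorem card_le_three {σ k Ω : Type} [Finite σ] [Nonempty σ] [Field k] [Field Ω]
    [Algebra (MvPolynomial σ k) Ω] [IsFractionRing (MvPolynomial σ k) Ω] [Algebra k Ω]
    [IsScalarTower k (MvPolynomial σ k) Ω] (c0 c1 W : Ω) (hW : W ≠ 0)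
    (k' : Subfield Ω) (hk' : k' ≤ (IntermediateField.adjoin k {c0, c1}).toSubfield)
    (hint : ∀ j : σ, IsIntegral k' (algebraMap (MvPolynomial σ k) Ω (X j) * W)) :
    Nat.card σ ≤ 3 := by
  classical
  obtain ⟨j0⟩ : Nonempty σ := inferInstance
  let ι := algebraMap (MvPolynomial σ k) Ω
  have hinj : Function.Injective ι := IsFractionRing.injective _ _
  let s : Set Ω := {c0, c1, ι (X j0)}
  let F : IntermediateField k Ω := IntermediateField.adjoin k s
  have hle : IntermediateField.adjoin k {c0, c1} ≤ F := by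
    apply IntermediateField.adjoin.mono
    intro x hx
    rcases hx with rfl | hx
    · exact Or.inl rfl
    · exact Or.inr (Or.inl hx)
  have hkF : ∀ x ∈ k', x ∈ F := fun x hx => hle (hk' hx)
  have hz : ∀ j : σ, IsIntegral F (ι (X j) * W) := by
    intro j
    refine IsIntegral.map_of_comp_eq (R := k') (T := F) (U := Ω)
      { toFun := fun x => (⟨x.1, hkF x.1 x.2⟩ : F)
        map_one' := rfl
        map_mul' := fun _ _ => rfl
        map_zero' := rfl
        map_add' := fun _ _ => rfl } (RingHom.id Ω) ?_ (hint j)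
    ext x; rfl
  have hE : ∀ x : Ω, x ∈ algebraicClosure F Ω := by
    have hzE : ∀ j, ι (X j) * W ∈ algebraicClosure F Ω := fun j =>
      mem_algebraicClosure_iff'.2 (hz j)
    have hxF : ι (X j0) ∈ F := IntermediateField.subset_adjoin k s (by simp [s])
    have hx0E : ι (X j0) ∈ algebraicClosure F Ω := by
      have := (algebraicClosure F Ω).algebraMap_mem (⟨_, hxF⟩ : F)
      exact this
    have hx0ne : ι (X j0) ≠ 0 := fun h0 => X_ne_zero j0 (hinj (by rw [h0, map_zero]))
    have hWE : W ∈ algebraicClosure F Ω := by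
      have : W = (ι (X j0) * W) / ι (X j0) := by field_simp
      rw [this]
      exact (algebraicClosure F Ω).div_mem (hzE j0) hx0E
    have hxE : ∀ j, ι (X j) ∈ algebraicClosure F Ω := by
      intro j
      have : ι (X j) = (ι (X j) * W) / W := by field_simp
      rw [this]
      exact (algebraicClosure F Ω).div_mem (hzE j) hWE
    have hpE : ∀ p : MvPolynomial σ k, ι p ∈ algebraicClosure F Ω := by
      intro p
      induction p using MvPolynomial.induction_on with
      | C a =>
        have h1 : ι (C a) = algebraMap k Ω a := by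
          rw [IsScalarTower.algebraMap_apply k (MvPolynomial σ k) Ω]; rfl
        rw [h1]
        have h2 : algebraMap k Ω a ∈ F := F.algebraMap_mem a
        exact (algebraicClosure F Ω).algebraMap_mem (⟨_, h2⟩ : F)
      | add p q hp hq => rw [map_add]; exact (algebraicClosure F Ω).add_mem hp hq
      | mul_X p i hp => rw [map_mul]; exact (algebraicClosure F Ω).mul_mem hp (hxE i)
    intro x
    obtain ⟨p, q, _, rfl⟩ := IsFractionRing.div_surjective (A := MvPolynomial σ k) x
    exact (algebraicClosure F Ω).div_mem (hpE p) (hpE q)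
  have hFalg : Algebra.IsAlgebraic F Ω := ⟨fun x => mem_algebraicClosure_iff.1 (hE x)⟩
  open scoped IntermediateField.algebraAdjoinAdjoin in
  have hsalg : Algebra.IsAlgebraic (Algebra.adjoin k s) Ω :=
    (IsFractionRing.comap_isAlgebraic_iff (A := Algebra.adjoin k s) (K := F) (C := Ω)).2 hFalg
  have h1 : Algebra.trdeg k Ω ≤ Cardinal.mk s := Algebra.IsAlgebraic.trdeg_le_cardinalMk k s
  have h2 : Cardinal.mk s ≤ 3 := by
    have h3 : s = ((({c0, c1, ι (X j0)} : Finset Ω)) : Set Ω) := by simp [s]
    rw [h3]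
    refine (Cardinal.mk_coe_finset (s := ({c0, c1, ι (X j0)} : Finset Ω))).le.trans ?_
    have h4 : (({c0, c1, ι (X j0)} : Finset Ω)).card ≤ 3 := Finset.card_le_three
    exact_mod_cast h4
  have h5 : AlgebraicIndependent k (fun j : σ => ι (X j)) := by
    have h6 : AlgebraicIndependent k (X : σ → MvPolynomial σ k) := algebraicIndependent_X σ k
    let f : MvPolynomial σ k →ₐ[k] Ω := IsScalarTower.toAlgHom k (MvPolynomial σ k) Ω
    exact h6.map' (f := f) hinj
  have h7 : Cardinal.mk σ ≤ Algebra.trdeg k Ω := h5.cardinalMk_le_trdeg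
  have h8 : Cardinal.mk σ ≤ 3 := h7.trans (h1.trans h2)
  have := Fintype.ofFinite σ
  rw [Cardinal.mk_fintype] at h8
  rw [Nat.card_eq_fintype_card]
  exact_mod_cast h8

end Pool.Agent.Lib.MPbca609
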