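import Mathlib

/-!
Nullstellensatz at the origin, constancy of fractions with vanishing derivatives, and the
extension of derivations to localizations.
-/

namespace Pool.Agent.Lib.MPbca609

open MvPolynomial

/-- An ideal with no zero outside the origin contains a power of each variable. -/
theorem exists_X_pow_mem {σ k : Type*} [Finite σ] [Field k] [IsAlgClosed k]
    (J : Ideal (MvPolynomial σ k)) (hJ : ∀ a : σ → k, a ≠ 0 → ∃ q ∈ J, eval a q ≠ 0) :
    ∃ N : ℕ, ∀ j : σ, (X j : MvPolynomial σ k) ^ N ∈ J := by
  have h1 : ∀ j : σ, (X j : MvPolynomial σ k) ∈ J.radical := by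
    intro j
    rw [← vanishingIdeal_zeroLocus_eq_radical (K := k), mem_vanishingIdeal_iff]
    intro x hx
    by_cases hx0 : x = 0
    · simp [hx0]
    · obtain ⟨q, hq, hqx⟩ := hJ x hx0
      exact absurd (mem_zeroLocus_iff.1 hx q hq) (by simpa using hqx)
  choose n hn using fun j => h1 j
  have := Fintype.ofFinite σ
  refine ⟨∑ j, n j, fun j => ?_⟩
  have h2 : n j ≤ ∑ j, n j := Finset.single_le_sum (fun _ _ => Nat.zero_le _) (Finset.mem_univ j)
  exact J.pow_mem_of_pow_mem (hn j) h2

section deriv

variable {σ k : Type*} [Field k] [CharZero k]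

theorem pderiv_eq_zero_of_dvd {p : MvPolynomial σ k} {i : σ} (h : p ∣ pderiv i p) :
    pderiv i p = 0 := by
  by_contra hne
  obtain ⟨q, hq⟩ := h
  have hp : p ≠ 0 := by rintro rfl; simp at hne
  have hq0 : q ≠ 0 := by rintro rfl; rw [mul_zero] at hq; exact hne hq
  have h1 : (pderiv i p).totalDegree = p.totalDegree + q.totalDegree := by
    conv_lhs => rw [hq]
    rw [totalDegree_mul_of_isDomain hp hq0]
  have h2 : ∀ m ∈ (pderiv i p).support, m.degree + 1 ≤ p.totalDegree := by
    intro m hm
    rw [mem_support_iff, coeff_pderiv] at hm
    have h3 : m + Finsupp.single i 1 ∈ p.support := by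
      rw [mem_support_iff]; exact left_ne_zero_of_mul hm
    have h4 := le_totalDegree h3
    have h5 : (m + Finsupp.single i 1).sum (fun _ e => e) = m.degree + 1 := by
      have : (m + Finsupp.single i 1).sum (fun _ e => e) = (m + Finsupp.single i 1).degree := by
        rw [Finsupp.degree_apply]; rfl
      rw [this, map_add, Finsupp.degree_single]
    rw [h5] at h4
    exact h4
  obtain ⟨m, hm⟩ := support_nonempty.2 hne
  have h6 := h2 m hm
  have h7 : (pderiv i p).totalDegree + 1 ≤ p.totalDegree := by
    have h8 : (pderiv i p).totalDegree ≤ p.totalDegree - 1 := by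
      refine Finset.sup_le ?_
      intro m' hm'
      have := h2 m' hm'
      have h9 : (m'.sum fun _ e => e) = m'.degree := by rw [Finsupp.degree_apply]; rfl
      rw [h9]; omega
    omega
  omega

theorem eq_C_of_pderiv_eq_zero {p : MvPolynomial σ k} (h : ∀ i, pderiv i p = 0) :
    p = C (coeff 0 p) := by
  classical
  ext m
  rw [coeff_C]
  split_ifs with hm
  · rw [← hm]
  · obtain ⟨i, hi⟩ : ∃ i, m i ≠ 0 := by
      by_contra hcon
      push Not at hcon
      exact hm (by ext i; simp [hcon i])
    have h1 := coeff_pderiv (i := i) p (m - Finsupp.single i 1)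
    rw [h i, coeff_zero] at h1
    have h2 : m - Finsupp.single i 1 + Finsupp.single i 1 = m := by
      ext l
      simp only [Finsupp.coe_add, Finsupp.coe_tsub, Pi.add_apply, Pi.sub_apply]
      by_cases hl : i = l
      · subst hl; simp; omega
      · rw [Finsupp.single_eq_of_ne' hl]; omega
    rw [h2] at h1
    have h3 : ((((m - Finsupp.single i 1 : σ →₀ ℕ) i : ℕ) : k)) + 1 ≠ 0 := by
      exact Nat.cast_add_one_ne_zero _
    exact (mul_eq_zero.1 h1.symm).resolve_right h3

/-- A fraction all of whose derivatives vanish is constant. -/
theorem exists_C_mul_of_pderiv {g h : MvPolynomial σ k} (hg : g ≠ 0)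
    (H : ∀ i, g * pderiv i h = h * pderiv i g) : ∃ c : k, h = C c * g := by
  obtain ⟨g', h', c', hrel, hcg, hch⟩ :=
    UniqueFactorizationMonoid.exists_reduced_factors g hg h
  have hc' : c' ≠ 0 := by rintro rfl; rw [zero_mul] at hcg; exact hg hcg.symm
  have hg' : g' ≠ 0 := by rintro rfl; rw [mul_zero] at hcg; exact hg hcg.symm
  have H' : ∀ i, g' * pderiv i h' = h' * pderiv i g' := by
    intro i
    have h1 := H i
    rw [← hcg, ← hch, pderiv_mul, pderiv_mul] at h1
    have h2 : (c' * c') * (g' * pderiv i h') = (c' * c') * (h' * pderiv i g') := by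
      linear_combination h1
    exact mul_left_cancel₀ (mul_ne_zero hc' hc') h2
  have hgz : ∀ i, pderiv i g' = 0 := fun i => by
    apply pderiv_eq_zero_of_dvd
    have h1 : g' ∣ h' * pderiv i g' := ⟨_, (H' i).symm⟩
    exact hrel.dvd_of_dvd_mul_left h1
  have hhz : ∀ i, pderiv i h' = 0 := fun i => by
    have h1 := H' i
    rw [hgz i, mul_zero] at h1
    exact (mul_eq_zero.1 h1).resolve_left hg'
  have e1 := eq_C_of_pderiv_eq_zero hgz
  have e2 := eq_C_of_pderiv_eq_zero hhz
  have hc0 : coeff 0 g' ≠ 0 := by
    intro h0
    rw [h0, map_zero] at e1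
    exact hg' e1
  refine ⟨coeff 0 h' / coeff 0 g', ?_⟩
  have : h' = C (coeff 0 h' / coeff 0 g') * g' := by
    calc h' = C (coeff 0 h') := e2
      _ = C (coeff 0 h' / coeff 0 g') * C (coeff 0 g') := by
        rw [← map_mul]; congr 1; field_simp
      _ = _ := by rw [← e1]
  rw [← hch, ← hcg]
  calc c' * h' = c' * (C (coeff 0 h' / coeff 0 g') * g') := by rw [← this]
    _ = _ := by ring

end deriv

/-- Extension of a derivation to a localization. -/
theorem exists_derivation_localization {S O : Type*} [CommRing S] [CommRing O] [Algebra S O]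
    (Mo : Submonoid S) [IsLocalization Mo O] (D : Derivation ℤ S S) :
    ∃ D' : Derivation ℤ O O, ∀ x : S, D' (algebraMap S O x) = algebraMap S O (D x) := by
  let f : S →+* DualNumber O :=
    { toFun := fun x => (algebraMap S O x, algebraMap S O (D x))
      map_one' := by
        ext
        · show algebraMap S O 1 = 1
          simp
        · show algebraMap S O (D 1) = 0
          simp
      map_mul' := by
        intro x y
        ext
        · show algebraMap S O (x * y) = algebraMap S O x * algebraMap S O y
          simp
        · show algebraMap S O (D (x * y)) =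
            algebraMap S O x • algebraMap S O (D y) +
              MulOpposite.op (algebraMap S O y) • algebraMap S O (D x)
          rw [D.leibniz]
          simp [mul_comm]
      map_zero' := by
        ext
        · show algebraMap S O 0 = 0
          simp
        · show algebraMap S O (D 0) = 0
          simp
      map_add' := by
        intro x y
        ext
        · show algebraMap S O (x + y) = algebraMap S O x + algebraMap S O y
          simp
        · show algebraMap S O (D (x + y)) = algebraMap S O (D x) + algebraMap S O (D y)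
          simp }
  have hf : ∀ y : Mo, IsUnit (f y) := by
    intro y
    rw [TrivSqZeroExt.isUnit_iff_isUnit_fst]
    exact IsLocalization.map_units O y
  let F : O →+* DualNumber O := IsLocalization.lift hf
  have hF : ∀ x : S, F (algebraMap S O x) = f x := fun x => IsLocalization.lift_eq hf x
  have hfst : ∀ x : O, (F x).fst = x := by
    have h1 : (TrivSqZeroExt.fstHom ℤ O O).toRingHom.comp F = RingHom.id O := by
      apply IsLocalization.ringHom_ext Mo
      ext x
      show (F (algebraMap S O x)).fst = algebraMap S O x
      rw [hF]; rfl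
    intro x
    exact congrArg (fun g : O →+* O => g x) h1
  refine ⟨Derivation.mk' { toFun := fun x => (F x).snd
                           map_add' := fun x y => by simp
                           map_smul' := fun n x => by simp } ?_, ?_⟩
  · intro a b
    show (F (a * b)).snd = a • (F b).snd + b • (F a).snd
    rw [map_mul, TrivSqZeroExt.snd_mul, hfst, hfst]
    simp [mul_comm]
  · intro x
    show (F (algebraMap S O x)).snd = _
    rw [hF]; rfl

end Pool.Agent.Lib.MPbca609
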