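import Mathlib

/-!
Local lemmas about power series over a local domain, used for MP_bca609_ag.
-/

namespace Pool.Agent.Lib.MPbca609

open PowerSeries IsLocalRing

theorem eq_C_add_X_mul {O : Type*} [CommRing O] (r : O⟦X⟧) :
    ∃ r' : O⟦X⟧, r = C (constantCoeff r) + X * r' :=
  ⟨PowerSeries.mk fun p => coeff (p + 1) r, by
    have := eq_X_mul_shift_add_const r
    rw [add_comm]; exact this⟩

/-- Division of a power series by `X + C s` modulo `X ^ N`. -/
theorem exists_div_X_add_C {O : Type*} [CommRing O] (s : O) (N : ℕ) (p : O⟦X⟧) :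
    ∃ (c : O) (m r : O⟦X⟧), p = C c + (X + C s) * m + X ^ N * r := by
  induction N generalizing p with
  | zero => exact ⟨0, 0, p, by simp⟩
  | succ N ih =>
    obtain ⟨c, m, r, h⟩ := ih p
    have h1 : (X : O⟦X⟧) - (-(C s)) ∣ (X : O⟦X⟧) ^ N - (-(C s)) ^ N := sub_dvd_pow_sub_pow _ _ _
    obtain ⟨z, hz⟩ := h1
    obtain ⟨r', hr⟩ := eq_C_add_X_mul r
    refine ⟨c + (-s) ^ N * constantCoeff r, m + z * C (constantCoeff r), r', ?_⟩
    have hXN : (X : O⟦X⟧) ^ N = (-(C s)) ^ N + (X - (-(C s))) * z := by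
      rw [← hz]; ring
    have hC : C (c + (-s) ^ N * constantCoeff r) = C c + (-(C s)) ^ N * C (constantCoeff r) := by
      simp
    rw [hC]
    have h2 : X ^ N * r = ((-(C s)) ^ N + (X - (-(C s))) * z) * C (constantCoeff r) +
        X ^ (N + 1) * r' := by
      rw [← hXN]
      conv_lhs => rw [hr]
      ring
    rw [h, h2]
    ring

theorem exists_span_add {O : Type*} [CommRing O] (N : ℕ) (p : O⟦X⟧) :
    ∃ a ∈ Submodule.span O (Set.range fun j : Fin N => (X : O⟦X⟧) ^ (j : ℕ)), ∃ r : O⟦X⟧,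
      p = a + X ^ N * r := by
  induction N generalizing p with
  | zero => exact ⟨0, Submodule.zero_mem _, p, by simp⟩
  | succ N ih =>
    obtain ⟨a, ha, r, h⟩ := ih p
    obtain ⟨r', hr⟩ := eq_C_add_X_mul r
    refine ⟨a + constantCoeff r • X ^ N, ?_, r', ?_⟩
    · refine Submodule.add_mem _ ?_ (Submodule.smul_mem _ _ (Submodule.subset_span ⟨Fin.last N, by simp⟩))
      refine Submodule.span_mono ?_ ha
      rintro _ ⟨j, rfl⟩
      exact ⟨j.castSucc, by simp⟩
    · rw [h]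
      conv_lhs => rw [hr]
      rw [PowerSeries.smul_eq_C_mul]
      ring

/-- The Nakayama step: an ideal of `O⟦X⟧` containing a power of `X` and an element
`f₀ + f₁ X + ...` with `f₀` in the maximal ideal and `f₁` a unit contains some `X + s`. -/
theorem exists_X_add_C_mem {O : Type*} [CommRing O] [IsLocalRing O] (I : Ideal O⟦X⟧) (N : ℕ)
    (hN : (X : O⟦X⟧) ^ N ∈ I) (f0 : O) (hf0 : f0 ∈ maximalIdeal O) (υ υ' : O⟦X⟧)
    (hυ : υ * υ' = 1) (hf : C f0 + X * υ ∈ I) :
    ∃ s ∈ maximalIdeal O, X + C s ∈ I := by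
  -- the `O`-submodule spanned by the monomials
  let N' : Submodule O O⟦X⟧ := Submodule.span O (Set.range fun j : Fin N => (X : O⟦X⟧) ^ (j : ℕ))
  let I' : Submodule O O⟦X⟧ := I.restrictScalars O
  let U : Submodule O O⟦X⟧ := I' ⊔ Submodule.span O {1}
  have hXf : X + C f0 * υ' ∈ I := by
    have := I.mul_mem_left υ' hf
    have e : υ' * (C f0 + X * υ) = X + C f0 * υ' := by
      calc υ' * (C f0 + X * υ) = C f0 * υ' + X * (υ * υ') := by ring
        _ = _ := by rw [hυ]; ring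
    rwa [e] at this
  -- every power series is a polynomial of degree < N plus an element of `I`
  have key : ∀ p : O⟦X⟧, ∃ a ∈ N', ∃ b ∈ I, p = a + b := by
    intro p
    obtain ⟨a, ha, r, h⟩ := exists_span_add N p
    exact ⟨a, ha, X ^ N * r, I.mul_mem_right _ hN, h⟩
  have hfg : N'.FG := Submodule.fg_span (Set.finite_range _)
  have hle : N' ≤ U ⊔ (maximalIdeal O) • N' := by
    refine Submodule.span_le.2 ?_
    rintro _ ⟨⟨j, hj⟩, rfl⟩
    rcases Nat.eq_zero_or_pos j with rfl | hpos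
    · refine Submodule.mem_sup_left (Submodule.mem_sup_right ?_)
      simpa using Submodule.mem_span_singleton_self (R := O) (1 : O⟦X⟧)
    · obtain ⟨j, rfl⟩ : ∃ i, j = i + 1 := ⟨j - 1, by omega⟩
      obtain ⟨a, ha, b, hb, hab⟩ := key (υ' * X ^ j)
      have e : (X : O⟦X⟧) ^ (j + 1) = ((X + C f0 * υ') * X ^ j - C f0 * b) + (-f0) • a := by
        rw [PowerSeries.smul_eq_C_mul]
        have : (X + C f0 * υ') * X ^ j = X ^ (j + 1) + C f0 * (υ' * X ^ j) := by ring
        rw [this, hab]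
        simp
        ring
      show (X : O⟦X⟧) ^ (j + 1) ∈ _
      rw [e]
      refine Submodule.add_mem _ (Submodule.mem_sup_left (Submodule.mem_sup_left ?_))
        (Submodule.mem_sup_right (Submodule.smul_mem_smul ((maximalIdeal O).neg_mem hf0) ha))
      exact I.sub_mem (I.mul_mem_right _ hXf) (I.mul_mem_left _ hb)
  have hle' : N' ≤ U :=
    Submodule.le_of_le_smul_of_le_jacobson_bot hfg (IsLocalRing.maximalIdeal_le_jacobson _) hle
  obtain ⟨a, ha, b, hb, hab⟩ := key υ'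
  obtain ⟨c, hc, d, hd, hcd⟩ := Submodule.mem_sup.1 (hle' ha)
  obtain ⟨r, rfl⟩ := Submodule.mem_span_singleton.1 hd
  refine ⟨f0 * r, (maximalIdeal O).mul_mem_right _ hf0, ?_⟩
  have e : X + C (f0 * r) = (X + C f0 * υ') - C f0 * (b + c) := by
    rw [hab, ← hcd, PowerSeries.smul_eq_C_mul]
    simp
    ring
  rw [e]
  exact I.sub_mem hXf (I.mul_mem_left _ (I.add_mem hb hc))

/-- If `C q * X ^ n * υ = α * (X + C s) - ν * C p` with `υ` a unit, `q` a unit and `s` in the
maximal ideal, then each prime divisor of `p` divides `s`. -/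
theorem prime_dvd_of_eq {O : Type*} [CommRing O] [IsDomain O] [IsLocalRing O] {s p : O}
    (hs : s ∈ maximalIdeal O) {n : ℕ} {υ α ν : O⟦X⟧} (hυ : IsUnit υ)
    (h : X ^ n * υ = α * (X + C s) - ν * C p) (π : O) (hπ : Prime π) (hd : π ∣ p) : π ∣ s := by
  by_contra hcon
  let J : Ideal O := Ideal.span {π}
  have hJ : J.IsPrime := (Ideal.span_singleton_prime hπ.ne_zero).2 hπ
  let f : O →+* O ⧸ J := Ideal.Quotient.mk J
  have hp : f p = 0 := Ideal.Quotient.eq_zero_iff_mem.2 (Ideal.mem_span_singleton.2 hd)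
  have hs0 : f s ≠ 0 := fun h0 => hcon
    (Ideal.mem_span_singleton.1 (Ideal.Quotient.eq_zero_iff_mem.1 h0))
  have h1 : (X : (O ⧸ J)⟦X⟧) ^ n * PowerSeries.map f υ = PowerSeries.map f α * (X + C (f s)) := by
    have := congrArg (PowerSeries.map f) h
    simpa [hp] using this
  have hXp : Prime (X : (O ⧸ J)⟦X⟧) := X_prime
  have hnd : ¬ (X : (O ⧸ J)⟦X⟧) ∣ (X + C (f s)) := by
    intro hx
    rw [X_dvd_iff] at hx
    simp at hx
    exact hs0 hx
  have hdvd : (X : (O ⧸ J)⟦X⟧) ^ n ∣ PowerSeries.map f α * (X + C (f s)) := ⟨_, h1.symm⟩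
  have hdvd' : (X : (O ⧸ J)⟦X⟧) ^ n ∣ PowerSeries.map f α :=
    hXp.pow_dvd_of_dvd_mul_right n hnd hdvd
  obtain ⟨β, hβ⟩ := hdvd'
  have h2 : PowerSeries.map f υ = β * (X + C (f s)) := by
    have hne : (X : (O ⧸ J)⟦X⟧) ^ n ≠ 0 := pow_ne_zero _ hXp.ne_zero
    apply mul_left_cancel₀ hne
    rw [h1, hβ]; ring
  have h3 : IsUnit (β * (X + C (f s))) := h2 ▸ hυ.map _
  have h4 : IsUnit (X + C (f s)) := isUnit_of_mul_isUnit_right h3
  have h5 : IsUnit (f s) := by
    have := h4.map (constantCoeff (R := O ⧸ J))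
    simpa using this
  -- but s is in the maximal ideal
  obtain ⟨u, hu⟩ := h5.exists_right_inv
  obtain ⟨u', rfl⟩ := Ideal.Quotient.mk_surjective u
  have h6 : s * u' - 1 ∈ J := by
    rw [← Ideal.Quotient.eq_zero_iff_mem]
    simp only [map_sub, map_mul, map_one]
    show f s * f u' - 1 = 0
    rw [hu]; simp
  have hJm : J ≤ maximalIdeal O := le_maximalIdeal hJ.ne_top
  have h7 : (1 : O) ∈ maximalIdeal O := by
    have := (maximalIdeal O).sub_mem ((maximalIdeal O).mul_mem_right u' hs) (hJm h6)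
    simpa using this
  exact (maximalIdeal.isMaximal O).ne_top ((Ideal.eq_top_iff_one _).2 h7)

/-- Same as `prime_dvd_of_eq` with `p = 0`: then `s = 0`. -/
theorem eq_zero_of_eq {O : Type*} [CommRing O] [IsDomain O] [IsLocalRing O] {s : O}
    (hs : s ∈ maximalIdeal O) {n : ℕ} {υ α : O⟦X⟧} (hυ : IsUnit υ)
    (h : X ^ n * υ = α * (X + C s)) : s = 0 := by
  by_contra hs0
  have hXp : Prime (X : O⟦X⟧) := X_prime
  have hnd : ¬ (X : O⟦X⟧) ∣ (X + C s) := by
    intro hx
    rw [X_dvd_iff] at hx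
    simp at hx
    exact hs0 hx
  have hdvd : (X : O⟦X⟧) ^ n ∣ α * (X + C s) := ⟨_, h.symm⟩
  obtain ⟨β, hβ⟩ := hXp.pow_dvd_of_dvd_mul_right n hnd hdvd
  have h2 : υ = β * (X + C s) := by
    apply mul_left_cancel₀ (pow_ne_zero n hXp.ne_zero)
    rw [h, hβ]; ring
  have h3 : IsUnit (β * (X + C s)) := h2 ▸ hυ
  have h4 : IsUnit (X + C s) := isUnit_of_mul_isUnit_right h3
  have h5 : IsUnit s := by
    have := h4.map (constantCoeff (R := O))
    simpa using this
  exact (mem_maximalIdeal s).1 hs h5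

/-- The logarithmic derivative: if each prime divisor of `p` divides `s`, then `p ∣ s * D p`. -/
theorem dvd_mul_deriv {O : Type*} [CommRing O] [IsDomain O] [UniqueFactorizationMonoid O]
    (D : Derivation ℤ O O) (s : O) (p : O) (h : ∀ π : O, Prime π → π ∣ p → π ∣ s) :
    p ∣ s * D p := by
  induction p using UniqueFactorizationMonoid.induction_on_prime with
  | h₁ => simp
  | h₂ x hx => exact hx.dvd
  | h₃ a π ha hπ ih =>
    have h1 : a ∣ s * D a := ih fun q hq hqa => h q hq (hqa.mul_left _)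
    have h2 : π ∣ s := h π hπ (dvd_mul_right _ _)
    rw [D.leibniz]
    simp only [smul_eq_mul]
    rw [mul_add]
    refine dvd_add ?_ ?_
    · obtain ⟨z, hz⟩ := h1
      exact ⟨z, by calc s * (π * D a) = π * (s * D a) := by ring
                  _ = _ := by rw [hz]; ring⟩
    · obtain ⟨z, hz⟩ := h2
      exact ⟨z * D π, by rw [hz]; ring⟩

end Pool.Agent.Lib.MPbca609
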