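import Mathlib
import Pool.Agent.Lib.MP_bca609_ag.Local1

/-!
The field computation behind the local lemma.
-/

namespace Pool.Agent.Lib.MPbca609

open PowerSeries IsLocalRing

/-- The exterior product of two vectors of length two. -/
def wedge {R : Type*} [CommRing R] (a b : Fin 2 → R) : R := a 0 * b 1 - a 1 * b 0

/-- The pure computation in case `s ≠ 0`. -/
theorem core_ne_zero {Ω : Type*} [Field Ω]
    {g h g1 h1 Dg Dh e0 e1 w0 w1 p s m0 m1 Dp Ds Dm0 z : Ω}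
    (hg : g ≠ 0) (hE : e0 * h - e1 * g ≠ 0) (hδ : e0 * w1 - e1 * w0 ≠ 0) (hs : s ≠ 0)
    (E0 : p * (e0 * h - e1 * g) + s * ((w0 * h - w1 * g) + m0 * (e0 * h - e1 * g)) = 0)
    (E1 : p * (e0 * h1 - e1 * g1) + s * ((w0 * h1 - w1 * g1) + m0 * (e0 * h1 - e1 * g1)) +
      ((w0 * h - w1 * g) + m0 * (e0 * h - e1 * g)) + s * m1 * (e0 * h - e1 * g) = 0)
    (D0 : Dp * (e0 * h - e1 * g) + p * (e0 * Dh - e1 * Dg) +
      Ds * ((w0 * h - w1 * g) + m0 * (e0 * h - e1 * g)) +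
      s * ((w0 * Dh - w1 * Dg) + Dm0 * (e0 * h - e1 * g) + m0 * (e0 * Dh - e1 * Dg)) = 0)
    (hz : s * Dp = p * z) :
    ∃ c0 c1 η κ : Ω, c0 = h / g ∧ c1 = (g * h1 - h * g1) / g ^ 2 ∧ η = e0 * c0 - e1 ∧ η ≠ 0 ∧
      κ = (w0 * c1 * (e0 * c0 - e1) - (w0 * c0 - w1) * (e0 * c1)) / η ^ 2 ∧
      (g * Dh - h * Dg) / g ^ 2 =
        - (η ^ 2 / (e0 * w1 - e1 * w0)) * ((m1 + κ) * (z - Ds) + Dm0) := by
  have hη : e0 * (h / g) - e1 ≠ 0 := by
    intro h0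
    apply hE
    field_simp at h0
    linear_combination h0
  refine ⟨h / g, (g * h1 - h * g1) / g ^ 2, e0 * (h / g) - e1,
    (w0 * ((g * h1 - h * g1) / g ^ 2) * (e0 * (h / g) - e1) -
      (w0 * (h / g) - w1) * (e0 * ((g * h1 - h * g1) / g ^ 2))) / (e0 * (h / g) - e1) ^ 2,
    rfl, rfl, rfl, hη, rfl, ?_⟩
  obtain ⟨c0, hc0⟩ : ∃ c0, c0 = h / g := ⟨_, rfl⟩
  obtain ⟨c1, hc1⟩ : ∃ c1, c1 = (g * h1 - h * g1) / g ^ 2 := ⟨_, rfl⟩
  obtain ⟨W, hW⟩ : ∃ W, W = (g * Dh - h * Dg) / g ^ 2 := ⟨_, rfl⟩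
  rw [← hc0, ← hc1, ← hW]
  rw [← hc0] at hη
  obtain ⟨η, hηd⟩ : ∃ η, η = e0 * c0 - e1 := ⟨_, rfl⟩
  rw [← hηd]
  rw [← hηd] at hη
  obtain ⟨ω, hω⟩ : ∃ ω, ω = w0 * c0 - w1 := ⟨_, rfl⟩
  rw [← hω]
  have hh : h = c0 * g := by rw [hc0]; field_simp
  have hh1 : h1 = c1 * g + c0 * g1 := by rw [hc1, hc0]; field_simp; ring
  have hDh : Dh = W * g + c0 * Dg := by rw [hW, hc0]; field_simp; ring
  subst hh hh1 hDh
  have hEη : e0 * (c0 * g) - e1 * g = g * η := by rw [hηd]; ring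
  have hWω : w0 * (c0 * g) - w1 * g = g * ω := by rw [hω]; ring
  rw [hEη, hWω] at E0 E1 D0
  have E0' : p * η + s * (ω + m0 * η) = 0 := by
    apply mul_left_cancel₀ hg
    linear_combination E0
  have E1' : p * (e0 * c1) + s * (w0 * c1 + m0 * (e0 * c1)) + (ω + m0 * η) + s * m1 * η = 0 := by
    apply mul_left_cancel₀ hg
    have h1 : e0 * (c1 * g + c0 * g1) - e1 * g1 = g * (e0 * c1) + g1 * η := by rw [hηd]; ring
    have h2 : w0 * (c1 * g + c0 * g1) - w1 * g1 = g * (w0 * c1) + g1 * ω := by rw [hω]; ring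
    rw [h1, h2] at E1
    linear_combination E1 - g1 * E0'
  have D0' : Dp * η + p * (e0 * W) + Ds * (ω + m0 * η) +
      s * (w0 * W + Dm0 * η + m0 * (e0 * W)) = 0 := by
    apply mul_left_cancel₀ hg
    have h1 : e0 * (W * g + c0 * Dg) - e1 * Dg = g * (e0 * W) + Dg * η := by rw [hηd]; ring
    have h2 : w0 * (W * g + c0 * Dg) - w1 * Dg = g * (w0 * W) + Dg * ω := by rw [hω]; ring
    rw [h1, h2] at D0
    linear_combination D0 - Dg * E0'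
  obtain ⟨θ, hθ⟩ : ∃ θ, θ = ω / η + m0 := ⟨_, rfl⟩
  have hωη : ω + m0 * η = η * θ := by rw [hθ]; field_simp
  rw [hωη] at E0' E1' D0'
  have hp : p = - s * θ := by
    apply mul_left_cancel₀ hη
    linear_combination E0'
  obtain ⟨κ, hκ⟩ : ∃ κ, κ = (w0 * c1 * η - ω * (e0 * c1)) / η ^ 2 := ⟨_, rfl⟩
  rw [← hκ]
  have hm0 : m0 = θ - ω / η := by rw [hθ]; ring
  have hθ' : θ = - s * (m1 + κ) := by
    apply mul_left_cancel₀ hη
    have h3 : s * (w0 * c1 - ω * (e0 * c1) / η) = s * κ * η := by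
      rw [hκ]; field_simp
    have h4 : p * (e0 * c1) + s * (w0 * c1 + m0 * (e0 * c1)) =
        s * (w0 * c1 - ω * (e0 * c1) / η) := by
      rw [hp, hm0]; ring
    rw [h4, h3] at E1'
    linear_combination E1'
  have hδη : w0 * η - e0 * ω = e0 * w1 - e1 * w0 := by rw [hηd, hω]; ring
  have hfin : s * (W * (e0 * w1 - e1 * w0)) = - η ^ 2 * (Dp + Ds * θ + s * Dm0) := by
    have h5 : p * (e0 * W) + s * (w0 * W + m0 * (e0 * W)) = s * W * (w0 * η - e0 * ω) / η := by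
      rw [hp, hm0]; field_simp; ring
    rw [hδη] at h5
    have h6 : s * W * (e0 * w1 - e1 * w0) / η * η = s * W * (e0 * w1 - e1 * w0) := by
      field_simp
    have h7 : Dp * η + Ds * (η * θ) + s * (Dm0 * η) + s * W * (e0 * w1 - e1 * w0) / η = 0 := by
      rw [← h5]; linear_combination D0'
    have h8 := congrArg (· * η) h7
    simp only [add_mul, zero_mul, h6] at h8
    linear_combination h8
  have hDp : Dp = s * ((m1 + κ) * z) := by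
    apply mul_left_cancel₀ hs
    rw [hz, hp, hθ']; ring
  have hfin' : W * (e0 * w1 - e1 * w0) = - η ^ 2 * ((m1 + κ) * (z - Ds) + Dm0) := by
    apply mul_left_cancel₀ hs
    rw [hfin, hDp, hθ']; ring
  have : W = (W * (e0 * w1 - e1 * w0)) / (e0 * w1 - e1 * w0) := by field_simp
  rw [this, hfin']; ring

/-- The pure computation in case `s = 0`. -/
theorem core_zero {Ω : Type*} [Field Ω]
    {g h Dg Dh e0 e1 w0 w1 m0 Dm0 : Ω}
    (hg : g ≠ 0) (hE : e0 * h - e1 * g ≠ 0) (hδ : e0 * w1 - e1 * w0 ≠ 0)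
    (E1 : (w0 * h - w1 * g) + m0 * (e0 * h - e1 * g) = 0)
    (D1 : (w0 * Dh - w1 * Dg) + Dm0 * (e0 * h - e1 * g) + m0 * (e0 * Dh - e1 * Dg) = 0) :
    ∃ c0 η : Ω, c0 = h / g ∧ η = e0 * c0 - e1 ∧ η ≠ 0 ∧
      (g * Dh - h * Dg) / g ^ 2 = - (η ^ 2 / (e0 * w1 - e1 * w0)) * Dm0 := by
  have hη : e0 * (h / g) - e1 ≠ 0 := by
    intro h0
    apply hE
    field_simp at h0
    linear_combination h0
  refine ⟨h / g, e0 * (h / g) - e1, rfl, rfl, hη, ?_⟩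
  obtain ⟨c0, hc0⟩ : ∃ c0, c0 = h / g := ⟨_, rfl⟩
  obtain ⟨W, hW⟩ : ∃ W, W = (g * Dh - h * Dg) / g ^ 2 := ⟨_, rfl⟩
  rw [← hc0, ← hW]
  rw [← hc0] at hη
  obtain ⟨η, hηd⟩ : ∃ η, η = e0 * c0 - e1 := ⟨_, rfl⟩
  rw [← hηd]
  rw [← hηd] at hη
  obtain ⟨ω, hω⟩ : ∃ ω, ω = w0 * c0 - w1 := ⟨_, rfl⟩
  have hh : h = c0 * g := by rw [hc0]; field_simp
  have hDh : Dh = W * g + c0 * Dg := by rw [hW, hc0]; field_simp; ring
  subst hh hDh
  have hEη : e0 * (c0 * g) - e1 * g = g * η := by rw [hηd]; ring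
  have hWω : w0 * (c0 * g) - w1 * g = g * ω := by rw [hω]; ring
  rw [hEη, hWω] at E1
  rw [hEη] at D1
  have E1' : ω + m0 * η = 0 := by
    apply mul_left_cancel₀ hg
    linear_combination E1
  have h1 : e0 * (W * g + c0 * Dg) - e1 * Dg = g * (e0 * W) + Dg * η := by rw [hηd]; ring
  have h2 : w0 * (W * g + c0 * Dg) - w1 * Dg = g * (w0 * W) + Dg * ω := by rw [hω]; ring
  rw [h1, h2] at D1
  have D1' : w0 * W + Dm0 * η + m0 * (e0 * W) = 0 := by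
    apply mul_left_cancel₀ hg
    linear_combination D1 - Dg * E1'
  have hδη : w0 * η - e0 * ω = e0 * w1 - e1 * w0 := by rw [hηd, hω]; ring
  have hfin : W * (e0 * w1 - e1 * w0) = - η ^ 2 * Dm0 := by
    rw [← hδη]
    linear_combination η * D1' - e0 * W * E1'
  have : W = (W * (e0 * w1 - e1 * w0)) / (e0 * w1 - e1 * w0) := by field_simp
  rw [this, hfin]; ring

end Pool.Agent.Lib.MPbca609
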