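import Mathlib
import Pool.Agent.Lib.MP_bca609_ag.Local2

/-!
The local lemma.
-/

namespace Pool.Agent.Lib.MPbca609

open PowerSeries IsLocalRing

section lattice

variable {O : Type*} [CommRing O]

theorem wedge_add_smul (a b c d : O) (A B : Fin 2 → O) :
    wedge (a • A + b • B) (c • A + d • B) = (a * d - b * c) * wedge A B := by
  simp only [wedge, Pi.add_apply, Pi.smul_apply, smul_eq_mul]; ring

theorem mem_span_pair' {M : Type*} [AddCommGroup M] [Module O M] {A B u : M} :
    u ∈ Submodule.span O {A, B} ↔ ∃ a b : O, u = a • A + b • B := by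
  rw [Submodule.mem_span_pair]
  constructor
  · rintro ⟨a, b, h⟩; exact ⟨a, b, h.symm⟩
  · rintro ⟨a, b, h⟩; exact ⟨a, b, h.symm⟩

/-- The generators of a lattice `X ^ N 𝓞 ^ 2 ⊆ L ⊆ 𝓞 ^ 2` have wedge equal to a power of `X` up
to a unit. -/
theorem wedge_generators [IsDomain O] (L : Submodule O⟦X⟧ (Fin 2 → O⟦X⟧)) (A B : Fin 2 → O⟦X⟧)
    (hL : L = Submodule.span _ {A, B}) (N : ℕ) (hN : ∀ u : Fin 2 → O⟦X⟧, (X : O⟦X⟧) ^ N • u ∈ L) :
    ∃ (n : ℕ) (υ : O⟦X⟧), IsUnit υ ∧ wedge A B = X ^ n * υ := by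
  have h0 := hN (Pi.single 0 1)
  have h1 := hN (Pi.single 1 1)
  rw [hL, mem_span_pair'] at h0 h1
  obtain ⟨a, b, h0⟩ := h0
  obtain ⟨c, d, h1⟩ := h1
  have hw : (X : O⟦X⟧) ^ (2 * N) = (a * d - b * c) * wedge A B := by
    rw [← wedge_add_smul, ← h0, ← h1]
    simp [wedge, two_mul, pow_add]
  have hdvd : wedge A B ∣ (X : O⟦X⟧) ^ (2 * N) := ⟨_, by rw [hw, mul_comm]⟩
  obtain ⟨n, _, hn⟩ := (dvd_prime_pow X_prime _).1 hdvd
  obtain ⟨υ, hυ⟩ := hn.symm
  exact ⟨n, υ, υ.isUnit, hυ.symm⟩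

end lattice

theorem isUnit_of_sub_mem {O : Type*} [CommRing O] [IsLocalRing O] {x y : O} (hx : IsUnit x)
    (h : x - y ∈ maximalIdeal O) : IsUnit y := by
  by_contra hy
  have : x ∈ maximalIdeal O := by
    have := (maximalIdeal O).add_mem h ((mem_maximalIdeal y).2 hy)
    simpa using this
  exact (mem_maximalIdeal x).1 this hx

section local_lemma

variable {O : Type*} [CommRing O] [IsDomain O] [UniqueFactorizationMonoid O] [IsLocalRing O]

/-- The normal form of the lattice. -/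
theorem normal_form (L : Submodule O⟦X⟧ (Fin 2 → O⟦X⟧)) (A' B' : Fin 2 → O⟦X⟧)
    (hL : L = Submodule.span _ {A', B'}) (N : ℕ) (hN : ∀ u : Fin 2 → O⟦X⟧, (X : O⟦X⟧) ^ N • u ∈ L)
    (hdeep : ∀ u ∈ L, ∀ j, coeff 0 (u j) ∈ maximalIdeal O)
    (e0 e1 w0 w1 : O) (hδ : IsUnit (e0 * w1 - e1 * w0))
    (u : Fin 2 → O⟦X⟧) (hu : u ∈ L) (hu0 : coeff 1 (u 0) - w0 ∈ maximalIdeal O)
    (hu1 : coeff 1 (u 1) - w1 ∈ maximalIdeal O) :
    ∃ (B : Fin 2 → O⟦X⟧) (s p : O) (m : O⟦X⟧), B ∈ L ∧ s ∈ maximalIdeal O ∧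
      C (e0 * w1 - e1 * w0) * B 0 = C p * C e0 + (X + C s) * (C w0 + m * C e0) ∧
      C (e0 * w1 - e1 * w0) * B 1 = C p * C e1 + (X + C s) * (C w1 + m * C e1) ∧
      (∀ π : O, Prime π → π ∣ p → π ∣ s) ∧ (p = 0 → s = 0) := by
  obtain ⟨δ', hδ'⟩ := hδ.exists_right_inv
  set δ : O := e0 * w1 - e1 * w0 with hδdef
  have hCδ : (C δ : O⟦X⟧) * C δ' = 1 := by rw [← map_mul, hδ', map_one]
  -- the ideal `e ∧ L`
  let φ : (Fin 2 → O⟦X⟧) →ₗ[O⟦X⟧] O⟦X⟧ :=
    { toFun := fun v => C e0 * v 1 - C e1 * v 0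
      map_add' := by intro a b; simp only [Pi.add_apply]; ring
      map_smul' := by intro a b; simp only [Pi.smul_apply, smul_eq_mul, RingHom.id_apply]; ring }
  let I : Ideal O⟦X⟧ := L.map φ
  have hXN : (X : O⟦X⟧) ^ N ∈ I := by
    refine ⟨X ^ N • ![C δ' * C w0, C δ' * C w1], hN _, ?_⟩
    show C e0 * (X ^ N * (C δ' * C w1)) - C e1 * (X ^ N * (C δ' * C w0)) = X ^ N
    have : (C δ : O⟦X⟧) = C e0 * C w1 - C e1 * C w0 := by simp [hδdef]
    calc C e0 * (X ^ N * (C δ' * C w1)) - C e1 * (X ^ N * (C δ' * C w0)) =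
        X ^ N * ((C e0 * C w1 - C e1 * C w0) * C δ') := by ring
      _ = X ^ N := by rw [← this, hCδ, mul_one]
  obtain ⟨υ, hυ⟩ := eq_C_add_X_mul (φ u)
  have hf0 : constantCoeff (φ u) ∈ maximalIdeal O := by
    show constantCoeff (C e0 * u 1 - C e1 * u 0) ∈ _
    simp only [map_sub, map_mul, constantCoeff_C]
    refine Ideal.sub_mem _ (Ideal.mul_mem_left _ _ ?_) (Ideal.mul_mem_left _ _ ?_)
    · simpa using hdeep u hu 1
    · simpa using hdeep u hu 0
  have hυ0 : constantCoeff υ = e0 * coeff 1 (u 1) - e1 * coeff 1 (u 0) := by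
    have h1 := congrArg (coeff 1) hυ
    have h2 : coeff 1 (φ u) = e0 * coeff 1 (u 1) - e1 * coeff 1 (u 0) := by
      show coeff 1 (C e0 * u 1 - C e1 * u 0) = _
      simp
    rw [h2] at h1
    rw [h1]
    have : coeff 1 (C (constantCoeff (φ u)) + X * υ) = coeff 0 υ := by
      rw [map_add, coeff_C, if_neg one_ne_zero, zero_add]
      exact coeff_succ_X_mul 0 υ
    rw [this]; simp
  have hυu : IsUnit υ := by
    rw [isUnit_iff_constantCoeff, hυ0]
    refine isUnit_of_sub_mem hδ ?_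
    have : δ - (e0 * coeff 1 (u 1) - e1 * coeff 1 (u 0)) =
        e1 * (coeff 1 (u 0) - w0) - e0 * (coeff 1 (u 1) - w1) := by
      rw [hδdef]; ring
    rw [this]
    exact Ideal.sub_mem _ (Ideal.mul_mem_left _ _ hu0) (Ideal.mul_mem_left _ _ hu1)
  obtain ⟨υ', hυ'⟩ := hυu.exists_right_inv
  obtain ⟨s, hs, hsI⟩ := exists_X_add_C_mem I N hXN _ hf0 υ υ' hυ' (by
    rw [← hυ]; exact ⟨u, hu, rfl⟩)
  obtain ⟨B0, hB0, hφB0⟩ := hsI
  have hφB0' : C e0 * B0 1 - C e1 * B0 0 = X + C s := hφB0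
  obtain ⟨p, m, r, hpmr⟩ := exists_div_X_add_C s N (-(C w0 * B0 1 - C w1 * B0 0))
  let B : Fin 2 → O⟦X⟧ := B0 - (X : O⟦X⟧) ^ N • ![C δ' * r * C e0, C δ' * r * C e1]
  have hBL : B ∈ L := L.sub_mem hB0 (hN _)
  have hBe0 : B 0 = B0 0 - X ^ N * (C δ' * r * C e0) := rfl
  have hBe1 : B 1 = B0 1 - X ^ N * (C δ' * r * C e1) := rfl
  have hδC : (C δ : O⟦X⟧) = C e0 * C w1 - C e1 * C w0 := by simp [hδdef]
  have eq0 : C δ * B 0 = C p * C e0 + (X + C s) * (C w0 + m * C e0) := by
    rw [hBe0]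
    have h1 : C δ * (X ^ N * (C δ' * r * C e0)) = X ^ N * r * C e0 := by
      calc C δ * (X ^ N * (C δ' * r * C e0)) = (C δ * C δ') * (X ^ N * r * C e0) := by ring
        _ = _ := by rw [hCδ, one_mul]
    rw [mul_sub, h1]
    have h2 : C δ * B0 0 = (C e0 * B0 1 - C e1 * B0 0) * C w0 +
        (-(C w0 * B0 1 - C w1 * B0 0)) * C e0 := by rw [hδC]; ring
    rw [h2, hφB0', hpmr]; ring
  have eq1 : C δ * B 1 = C p * C e1 + (X + C s) * (C w1 + m * C e1) := by
    rw [hBe1]
    have h1 : C δ * (X ^ N * (C δ' * r * C e1)) = X ^ N * r * C e1 := by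
      calc C δ * (X ^ N * (C δ' * r * C e1)) = (C δ * C δ') * (X ^ N * r * C e1) := by ring
        _ = _ := by rw [hCδ, one_mul]
    rw [mul_sub, h1]
    have h2 : C δ * B0 1 = (C e0 * B0 1 - C e1 * B0 0) * C w1 +
        (-(C w0 * B0 1 - C w1 * B0 0)) * C e1 := by rw [hδC]; ring
    rw [h2, hφB0', hpmr]; ring
  have heB : C e0 * B 1 - C e1 * B 0 = X + C s := by
    have : C δ * (C e0 * B 1 - C e1 * B 0) = C δ * (X + C s) := by
      have h3 : C δ * (C e0 * B 1 - C e1 * B 0) = C e0 * (C δ * B 1) - C e1 * (C δ * B 0) := by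
        ring
      rw [h3, eq0, eq1, hδC]; ring
    have h4 : C δ' * (C δ * (C e0 * B 1 - C e1 * B 0)) = C δ' * (C δ * (X + C s)) := by rw [this]
    have h5 : ∀ y : O⟦X⟧, C δ' * (C δ * y) = y := by
      intro y
      calc C δ' * (C δ * y) = (C δ * C δ') * y := by ring
        _ = y := by rw [hCδ, one_mul]
    rwa [h5, h5] at h4
  -- a second element `A` with `A ∧ B = X ^ n * unit`
  obtain ⟨n, ε, hε, hAB'⟩ := wedge_generators L A' B' hL N hN
  have hA'L : A' ∈ L := by rw [hL]; exact Submodule.subset_span (by simp)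
  have hB'L : B' ∈ L := by rw [hL]; exact Submodule.subset_span (by simp)
  have hBL' := hBL
  rw [hL, mem_span_pair'] at hBL'
  obtain ⟨α, β, hαβ⟩ := hBL'
  have hA : ∃ A ∈ L, ∃ υ1 : O⟦X⟧, IsUnit υ1 ∧ wedge A B = X ^ n * υ1 := by
    by_cases hα : IsUnit (constantCoeff α)
    · refine ⟨B', hB'L, -(α * ε), ?_, ?_⟩
      · exact ((isUnit_iff_constantCoeff.2 hα).mul hε).neg
      · rw [hαβ]
        have : wedge B' (α • A' + β • B') = -(α * wedge A' B') := by
          simp only [wedge, Pi.add_apply, Pi.smul_apply, smul_eq_mul]; ring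
        rw [this, hAB']; ring
    by_cases hβ : IsUnit (constantCoeff β)
    · refine ⟨A', hA'L, β * ε, ?_, ?_⟩
      · exact (isUnit_iff_constantCoeff.2 hβ).mul hε
      · rw [hαβ]
        have : wedge A' (α • A' + β • B') = β * wedge A' B' := by
          simp only [wedge, Pi.add_apply, Pi.smul_apply, smul_eq_mul]; ring
        rw [this, hAB']; ring
    exfalso
    have hα' : constantCoeff α ∈ maximalIdeal O := (mem_maximalIdeal _).2 hα
    have hβ' : constantCoeff β ∈ maximalIdeal O := (mem_maximalIdeal _).2 hβ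
    have hB1 : ∀ j, coeff 1 (B j) ∈ maximalIdeal O := by
      intro j
      have : coeff 1 (B j) = coeff 1 α * coeff 0 (A' j) + coeff 0 α * coeff 1 (A' j) +
          (coeff 1 β * coeff 0 (B' j) + coeff 0 β * coeff 1 (B' j)) := by
        rw [hαβ]
        simp only [Pi.add_apply, Pi.smul_apply, smul_eq_mul, map_add, coeff_one_mul]
        simp
        ring
      rw [this]
      refine Ideal.add_mem _ (Ideal.add_mem _ (Ideal.mul_mem_left _ _ (hdeep _ hA'L j))
        (Ideal.mul_mem_right _ _ ?_)) (Ideal.add_mem _ (Ideal.mul_mem_left _ _ (hdeep _ hB'L j))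
        (Ideal.mul_mem_right _ _ ?_))
      · simpa using hα'
      · simpa using hβ'
    have h1 := congrArg (coeff 1) heB
    have h2 : coeff 1 (X + C s : O⟦X⟧) = 1 := by
      rw [map_add, coeff_C, if_neg one_ne_zero, add_zero, coeff_one_X]
    rw [h2] at h1
    have h3 : coeff 1 (C e0 * B 1 - C e1 * B 0) = e0 * coeff 1 (B 1) - e1 * coeff 1 (B 0) := by
      simp
    rw [h3] at h1
    have h4 : (1 : O) ∈ maximalIdeal O := by
      rw [← h1]
      exact Ideal.sub_mem _ (Ideal.mul_mem_left _ _ (hB1 1)) (Ideal.mul_mem_left _ _ (hB1 0))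
    exact (maximalIdeal.isMaximal O).ne_top ((Ideal.eq_top_iff_one _).2 h4)
  obtain ⟨A, hAL, υ1, hυ1, hAB⟩ := hA
  have hmain : X ^ n * (C δ * υ1) = (A 0 * (C w1 + m * C e1) - A 1 * (C w0 + m * C e0)) * (X + C s)
      - (C e0 * A 1 - C e1 * A 0) * C p := by
    have h1 : X ^ n * (C δ * υ1) = A 0 * (C δ * B 1) - A 1 * (C δ * B 0) := by
      calc X ^ n * (C δ * υ1) = C δ * (X ^ n * υ1) := by ring
        _ = C δ * wedge A B := by rw [hAB]
        _ = _ := by simp only [wedge]; ring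
    rw [h1, eq0, eq1]; ring
  have hunit : IsUnit (C δ * υ1) := (hδ.map C).mul hυ1
  refine ⟨B, s, p, m, hBL, hs, eq0, eq1, ?_, ?_⟩
  · intro π hπ hdvd
    exact prime_dvd_of_eq hs hunit hmain π hπ hdvd
  · rintro rfl
    refine eq_zero_of_eq (n := n) hs hunit
      (α := A 0 * (C w1 + m * C e1) - A 1 * (C w0 + m * C e0)) ?_
    rw [hmain]; simp

/-- The local lemma. -/
theorem local_lemma {k Ω : Type*} [Field k] [Algebra k O] [Field Ω] [Algebra O Ω]
    (hinj : Function.Injective (algebraMap O Ω))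
    (hres : ∀ x : O, ∃ c : k, x - algebraMap k O c ∈ maximalIdeal O)
    (D : Derivation ℤ O O) (hD : ∀ c : k, D (algebraMap k O c) = 0)
    (L : Submodule O⟦X⟧ (Fin 2 → O⟦X⟧)) (A' B' : Fin 2 → O⟦X⟧)
    (hL : L = Submodule.span _ {A', B'}) (N : ℕ) (hN : ∀ u : Fin 2 → O⟦X⟧, (X : O⟦X⟧) ^ N • u ∈ L)
    (us : Fin 2 → O⟦X⟧) (hus : us ∈ L)
    (hdeg : ∀ u ∈ L, ∀ u' ∈ L, coeff 0 (wedge u u') = 0)
    (hcond : ∃ u ∈ L, ∃ j, coeff 0 (u j) ∉ maximalIdeal O ∨ coeff 1 (u j) ∉ maximalIdeal O)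
    (hconst : ∀ c d : k, (c ≠ 0 ∨ d ≠ 0) →
      algebraMap k O c * coeff 0 (us 1) - algebraMap k O d * coeff 0 (us 0) ≠ 0)
    (k' : Subfield Ω) (hk : ∀ c : k, algebraMap O Ω (algebraMap k O c) ∈ k')
    (hc0 : algebraMap O Ω (coeff 0 (us 1)) / algebraMap O Ω (coeff 0 (us 0)) ∈ k')
    (hc1 : (algebraMap O Ω (coeff 0 (us 0)) * algebraMap O Ω (coeff 1 (us 1)) -
      algebraMap O Ω (coeff 0 (us 1)) * algebraMap O Ω (coeff 1 (us 0))) /
        algebraMap O Ω (coeff 0 (us 0)) ^ 2 ∈ k') :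
    (algebraMap O Ω (coeff 0 (us 0)) * algebraMap O Ω (D (coeff 0 (us 1))) -
      algebraMap O Ω (coeff 0 (us 1)) * algebraMap O Ω (D (coeff 0 (us 0)))) /
        algebraMap O Ω (coeff 0 (us 0)) ^ 2 ∈
      Submodule.span k' (Set.range (algebraMap O Ω)) := by
  set g : O := coeff 0 (us 0) with hg
  set h : O := coeff 0 (us 1) with hh
  set g1 : O := coeff 1 (us 0) with hg1
  set h1 : O := coeff 1 (us 1) with hh1
  have hg0 : g ≠ 0 := by
    have := hconst 0 1 (Or.inr one_ne_zero)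
    intro h0
    apply this
    rw [h0]; simp
  have hh0 : h ≠ 0 := by
    have := hconst 1 0 (Or.inl one_ne_zero)
    intro h0
    apply this
    rw [h0]; simp
  let ι := algebraMap O Ω
  have hι : ∀ x : O, x ≠ 0 → ι x ≠ 0 := fun x hx h0 => hx (hinj (by rw [map_zero]; exact h0))
  have hgΩ : ι g ≠ 0 := hι g hg0
  -- membership criteria
  have memO : ∀ x : O, ι x ∈ Submodule.span k' (Set.range (algebraMap O Ω)) := fun x =>
    Submodule.subset_span ⟨x, rfl⟩
  have memk : ∀ (κ : Ω), κ ∈ k' → ∀ y ∈ Submodule.span k' (Set.range (algebraMap O Ω)),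
      κ * y ∈ Submodule.span k' (Set.range (algebraMap O Ω)) := fun κ hκ y hy =>
    Submodule.smul_mem _ (⟨κ, hκ⟩ : k') hy
  have hslope0 : ∀ u ∈ L, coeff 0 (u 0) * h - coeff 0 (u 1) * g = 0 := by
    intro u hu
    have := hdeg u hu us hus
    simpa [wedge, hg, hh] using this
  by_cases hdeep : ∀ u ∈ L, ∀ j, coeff 0 (u j) ∈ maximalIdeal O
  · -- the deep case
    obtain ⟨u, hu, j, hj⟩ := hcond
    have hj1 : coeff 1 (u j) ∉ maximalIdeal O := by
      rcases hj with hj | hj
      · exact absurd (hdeep u hu j) hj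
      · exact hj
    obtain ⟨w0, hw0⟩ := hres (coeff 1 (u 0))
    obtain ⟨w1, hw1⟩ := hres (coeff 1 (u 1))
    have hw : w0 ≠ 0 ∨ w1 ≠ 0 := by
      by_contra hcon
      push Not at hcon
      obtain ⟨rfl, rfl⟩ := hcon
      rw [map_zero, sub_zero] at hw0 hw1
      fin_cases j
      · exact hj1 hw0
      · exact hj1 hw1
    obtain ⟨e0, e1, he⟩ : ∃ e0 e1 : k, e0 * w1 - e1 * w0 ≠ 0 := by
      rcases hw with hw | hw
      · exact ⟨0, 1, by simpa using hw⟩
      · exact ⟨1, 0, by simpa using hw⟩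
    have hδ : IsUnit (algebraMap k O e0 * algebraMap k O w1 - algebraMap k O e1 * algebraMap k O w0) := by
      rw [← map_mul, ← map_mul, ← map_sub]
      exact (IsUnit.mk0 _ he).map _
    have he01 : e0 ≠ 0 ∨ e1 ≠ 0 := by
      by_contra hcon
      push Not at hcon
      obtain ⟨rfl, rfl⟩ := hcon
      simp at he
    obtain ⟨B, s, p, m, hBL, hs, eq0, eq1, hprime, hp0⟩ :=
      normal_form L A' B' hL N hN hdeep _ _ _ _ hδ u hu hw0 hw1
    set E0 : O := algebraMap k O e0 with hE0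
    set E1 : O := algebraMap k O e1 with hE1
    set W0 : O := algebraMap k O w0 with hW0
    set W1 : O := algebraMap k O w1 with hW1
    set δ : O := E0 * W1 - E1 * W0 with hδdef
    have hE : E0 * h - E1 * g ≠ 0 := hconst e0 e1 he01
    -- wedge of B with us has vanishing coefficients 0 and 1
    obtain ⟨n, ε, hε, hAB'⟩ := wedge_generators L A' B' hL N hN
    have hA'L : A' ∈ L := by rw [hL]; exact Submodule.subset_span (by simp)
    have hB'L : B' ∈ L := by rw [hL]; exact Submodule.subset_span (by simp)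
    have hn : 2 ≤ n := by
      by_contra hcon
      have hn' : n = 0 ∨ n = 1 := by omega
      have hε' : IsUnit (constantCoeff ε) := isUnit_iff_constantCoeff.1 hε
      rcases hn' with rfl | rfl
      · have h1 := congrArg (coeff 0) hAB'
        have h2 : coeff 0 (wedge A' B') ∈ maximalIdeal O := by
          simp only [wedge, map_sub, coeff_zero_eq_constantCoeff, map_mul]
          refine Ideal.sub_mem _ (Ideal.mul_mem_right _ _ ?_) (Ideal.mul_mem_right _ _ ?_)
          · simpa using hdeep _ hA'L 0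
          · simpa using hdeep _ hA'L 1
        rw [h1] at h2
        simp at h2
        exact h2 hε'
      · have h1 := congrArg (coeff 1) hAB'
        have h2 : coeff 1 (wedge A' B') ∈ maximalIdeal O := by
          simp only [wedge, map_sub, coeff_one_mul]
          have a0 := hdeep _ hA'L 0
          have a1 := hdeep _ hA'L 1
          have b0 := hdeep _ hB'L 0
          have b1 := hdeep _ hB'L 1
          rw [coeff_zero_eq_constantCoeff_apply] at a0 a1 b0 b1
          refine Ideal.sub_mem _ (Ideal.add_mem _ ?_ ?_) (Ideal.add_mem _ ?_ ?_)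
          · exact Ideal.mul_mem_left _ _ b1
          · exact Ideal.mul_mem_left _ _ a0
          · exact Ideal.mul_mem_left _ _ b0
          · exact Ideal.mul_mem_left _ _ a1
        rw [h1] at h2
        have h3 : coeff 1 (X ^ 1 * ε) = constantCoeff ε := by
          rw [pow_one]
          have := coeff_succ_X_mul 0 ε
          simpa using this
        rw [h3] at h2
        exact (mem_maximalIdeal _).1 h2 hε'
    have hwB : wedge B us = 0 ∨ (X : O⟦X⟧) ^ 2 ∣ wedge B us := by
      right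
      have h1 := hBL
      have h2 := hus
      rw [hL, mem_span_pair'] at h1 h2
      obtain ⟨a, b, h1⟩ := h1
      obtain ⟨c, d, h2⟩ := h2
      rw [h1, h2, wedge_add_smul, hAB']
      obtain ⟨i, rfl⟩ : ∃ i, n = 2 + i := ⟨n - 2, by omega⟩
      exact ⟨(a * d - b * c) * (X ^ i * ε), by ring⟩
    have hwB2 : (X : O⟦X⟧) ^ 2 ∣ wedge B us := by
      rcases hwB with h0 | h0
      · rw [h0]; exact dvd_zero _
      · exact h0
    have hc : ∀ i < 2, coeff i (C δ * wedge B us) = 0 := by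
      intro i hi
      exact X_pow_dvd_iff.1 (hwB2.mul_left _) i hi
    have hexp : C δ * wedge B us = (C p * C E0 + (X + C s) * (C W0 + m * C E0)) * us 1 -
        (C p * C E1 + (X + C s) * (C W1 + m * C E1)) * us 0 := by
      rw [← eq0, ← eq1]; simp only [wedge]; ring
    have hc0' := hc 0 (by norm_num)
    have hc1' := hc 1 (by norm_num)
    rw [hexp] at hc0' hc1'
    set m0 : O := constantCoeff m with hm0
    set m1 : O := coeff 1 m with hm1
    have EQ0 : p * (E0 * h - E1 * g) + s * ((W0 * h - W1 * g) + m0 * (E0 * h - E1 * g)) = 0 := by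
      rw [← hc0']
      simp only [map_sub, map_add, map_mul, coeff_zero_eq_constantCoeff, constantCoeff_C,
        constantCoeff_X, ← hm0, hg, hh]
      ring
    have EQ1 : p * (E0 * h1 - E1 * g1) + s * ((W0 * h1 - W1 * g1) + m0 * (E0 * h1 - E1 * g1)) +
        ((W0 * h - W1 * g) + m0 * (E0 * h - E1 * g)) + s * m1 * (E0 * h - E1 * g) = 0 := by
      rw [← hc1']
      have hC1 : ∀ x : O, coeff 1 (C x : O⟦X⟧) = 0 := fun x => by
        rw [coeff_C, if_neg one_ne_zero]
      simp only [map_sub, map_add, coeff_one_mul, hC1, map_mul, constantCoeff_C,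
        constantCoeff_X, coeff_one_X, ← hm0, ← hm1, hg, hh, hg1, hh1,
        coeff_zero_eq_constantCoeff]
      ring
    have hDE0 : D E0 = 0 := hD _
    have hDE1 : D E1 = 0 := hD _
    have hDW0 : D W0 = 0 := hD _
    have hDW1 : D W1 = 0 := hD _
    -- membership of various elements in k'
    have kE0 : ι E0 ∈ k' := hk _
    have kE1 : ι E1 ∈ k' := hk _
    have kW0 : ι W0 ∈ k' := hk _
    have kW1 : ι W1 ∈ k' := hk _
    have hδΩ : ι E0 * ι W1 - ι E1 * ι W0 ≠ 0 := by
      have e : ι (E0 * W1 - E1 * W0) = ι E0 * ι W1 - ι E1 * ι W0 := by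
        rw [map_sub, map_mul, map_mul]
      rw [← e]; exact hι _ hδ.ne_zero
    have hEΩ : ι E0 * ι h - ι E1 * ι g ≠ 0 := by
      have e : ι (E0 * h - E1 * g) = ι E0 * ι h - ι E1 * ι g := by
        rw [map_sub, map_mul, map_mul]
      rw [← e]; exact hι _ hE
    by_cases hs0 : s = 0
    · -- s = 0
      have hpz : p = 0 := by
        rw [hs0, zero_mul, add_zero] at EQ0
        exact (mul_eq_zero.1 EQ0).resolve_right hE
      rw [hs0, hpz] at EQ1
      simp only [zero_mul, zero_add, add_zero] at EQ1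
      have D1 : (W0 * D h - W1 * D g) + D m0 * (E0 * h - E1 * g) + m0 * (E0 * D h - E1 * D g) = 0 := by
        have := congrArg D EQ1
        simp only [map_add, map_sub, D.leibniz, smul_eq_mul, hDE0, hDE1, hDW0, hDW1, map_zero,
          mul_zero, add_zero] at this
        rw [← this]; ring
      have EQ1Ω : (ι W0 * ι h - ι W1 * ι g) + ι m0 * (ι E0 * ι h - ι E1 * ι g) = 0 := by
        have := congrArg ι EQ1
        simpa using this
      have D1Ω : (ι W0 * ι (D h) - ι W1 * ι (D g)) + ι (D m0) * (ι E0 * ι h - ι E1 * ι g) +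
          ι m0 * (ι E0 * ι (D h) - ι E1 * ι (D g)) = 0 := by
        have := congrArg ι D1
        simpa using this
      obtain ⟨c0, η, hc0e, hηe, hη, hW⟩ := core_zero hgΩ hEΩ hδΩ EQ1Ω D1Ω
      have hfin : (ι g * ι (D h) - ι h * ι (D g)) / ι g ^ 2 ∈
          Submodule.span k' (Set.range (algebraMap O Ω)) := by
        rw [hW]
        have kη : η ∈ k' := by
          rw [hηe, hc0e]
          exact k'.sub_mem (k'.mul_mem kE0 hc0) kE1
        refine memk _ (k'.neg_mem (k'.div_mem (k'.pow_mem kη 2) ?_)) _ (memO _)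
        exact k'.sub_mem (k'.mul_mem kE0 kW1) (k'.mul_mem kE1 kW0)
      exact hfin
    · -- s ≠ 0
      obtain ⟨z, hz⟩ := dvd_mul_deriv D s p hprime
      have D0 : D p * (E0 * h - E1 * g) + p * (E0 * D h - E1 * D g) +
          D s * ((W0 * h - W1 * g) + m0 * (E0 * h - E1 * g)) +
          s * ((W0 * D h - W1 * D g) + D m0 * (E0 * h - E1 * g) + m0 * (E0 * D h - E1 * D g)) = 0 := by
        have := congrArg D EQ0
        simp only [map_add, map_sub, D.leibniz, smul_eq_mul, hDE0, hDE1, hDW0, hDW1, map_zero,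
          mul_zero, add_zero] at this
        rw [← this]; ring
      have EQ0Ω : ι p * (ι E0 * ι h - ι E1 * ι g) +
          ι s * ((ι W0 * ι h - ι W1 * ι g) + ι m0 * (ι E0 * ι h - ι E1 * ι g)) = 0 := by
        have := congrArg ι EQ0
        simpa using this
      have EQ1Ω : ι p * (ι E0 * ι h1 - ι E1 * ι g1) +
          ι s * ((ι W0 * ι h1 - ι W1 * ι g1) + ι m0 * (ι E0 * ι h1 - ι E1 * ι g1)) +
          ((ι W0 * ι h - ι W1 * ι g) + ι m0 * (ι E0 * ι h - ι E1 * ι g)) +
          ι s * ι m1 * (ι E0 * ι h - ι E1 * ι g) = 0 := by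
        have := congrArg ι EQ1
        simpa using this
      have D0Ω : ι (D p) * (ι E0 * ι h - ι E1 * ι g) + ι p * (ι E0 * ι (D h) - ι E1 * ι (D g)) +
          ι (D s) * ((ι W0 * ι h - ι W1 * ι g) + ι m0 * (ι E0 * ι h - ι E1 * ι g)) +
          ι s * ((ι W0 * ι (D h) - ι W1 * ι (D g)) + ι (D m0) * (ι E0 * ι h - ι E1 * ι g) +
            ι m0 * (ι E0 * ι (D h) - ι E1 * ι (D g))) = 0 := by
        have := congrArg ι D0
        simpa using this
      have hzΩ : ι s * ι (D p) = ι p * ι z := by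
        rw [← map_mul, ← map_mul, hz]
      obtain ⟨c0, c1, η, κ, hc0e, hc1e, hηe, hη, hκe, hW⟩ :=
        core_ne_zero hgΩ hEΩ hδΩ (hι s hs0) EQ0Ω EQ1Ω D0Ω hzΩ
      have hfin : (ι g * ι (D h) - ι h * ι (D g)) / ι g ^ 2 ∈
          Submodule.span k' (Set.range (algebraMap O Ω)) := by
        rw [hW]
        have kc0 : c0 ∈ k' := by rw [hc0e]; exact hc0
        have kc1 : c1 ∈ k' := by rw [hc1e]; exact hc1
        have kη : η ∈ k' := by
          rw [hηe]
          exact k'.sub_mem (k'.mul_mem kE0 kc0) kE1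
        have kκ : κ ∈ k' := by
          rw [hκe]
          refine k'.div_mem (k'.sub_mem (k'.mul_mem (k'.mul_mem kW0 kc1) ?_)
            (k'.mul_mem ?_ (k'.mul_mem kE0 kc1))) (k'.pow_mem kη 2)
          · rw [← hηe]; exact kη
          · exact k'.sub_mem (k'.mul_mem kW0 kc0) kW1
        refine memk _ (k'.neg_mem (k'.div_mem (k'.pow_mem kη 2) ?_)) _ ?_
        · exact k'.sub_mem (k'.mul_mem kE0 kW1) (k'.mul_mem kE1 kW0)
        · refine Submodule.add_mem _ ?_ (memO _)
          have : (ι m1 + κ) * (ι z - ι (D s)) = ι (m1 * (z - D s)) + κ * ι (z - D s) := by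
            rw [map_mul, map_sub]; ring
          rw [this]
          exact Submodule.add_mem _ (memO _) (memk _ kκ _ (memO _))
      exact hfin
  · -- the shallow case
    push Not at hdeep
    obtain ⟨u, hu, j, hj⟩ := hdeep
    have hsl := hslope0 u hu
    set a : O := coeff 0 (u 0) with ha
    set b : O := coeff 0 (u 1) with hb
    have hDsl : D a * h + a * D h - (D b * g + b * D g) = 0 := by
      have := congrArg D hsl
      simp only [map_sub, D.leibniz, smul_eq_mul, map_zero] at this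
      rw [← this]; ring
    have hslΩ : ι a * ι h - ι b * ι g = 0 := by
      have := congrArg ι hsl
      simpa using this
    have hDslΩ : ι (D a) * ι h + ι a * ι (D h) - (ι (D b) * ι g + ι b * ι (D g)) = 0 := by
      have := congrArg ι hDsl
      simpa using this
    have hfin : (ι g * ι (D h) - ι h * ι (D g)) / ι g ^ 2 ∈
        Submodule.span k' (Set.range (algebraMap O Ω)) := by
      have haW : ι a * ((ι g * ι (D h) - ι h * ι (D g)) / ι g ^ 2) =
          ι (D b) - ι h / ι g * ι (D a) := by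
        field_simp
        linear_combination (ι g) * hDslΩ - ι (D g) * hslΩ
      have hbW : ι b * ((ι g * ι (D h) - ι h * ι (D g)) / ι g ^ 2) =
          ι h / ι g * (ι (D b) - ι h / ι g * ι (D a)) := by
        rw [← haW]
        field_simp
        linear_combination (-1) * (ι g * ι (D h) - ι h * ι (D g)) * hslΩ
      have hunit : IsUnit a ∨ IsUnit b := by
        fin_cases j
        · left; by_contra hcon; exact hj ((mem_maximalIdeal _).2 hcon)
        · right; by_contra hcon; exact hj ((mem_maximalIdeal _).2 hcon)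
      rcases hunit with hun | hun
      · obtain ⟨a', ha'⟩ := hun.exists_right_inv
        have h1 : (ι g * ι (D h) - ι h * ι (D g)) / ι g ^ 2 =
            ι (a' * D b) - ι h / ι g * ι (a' * D a) := by
          calc (ι g * ι (D h) - ι h * ι (D g)) / ι g ^ 2 =
              ι (a * a') * ((ι g * ι (D h) - ι h * ι (D g)) / ι g ^ 2) := by rw [ha', map_one, one_mul]
            _ = ι a' * (ι a * ((ι g * ι (D h) - ι h * ι (D g)) / ι g ^ 2)) := by
                rw [map_mul]; ring
            _ = _ := by rw [haW, map_mul, map_mul]; ring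
        rw [h1]
        exact Submodule.sub_mem _ (memO _) (memk _ hc0 _ (memO _))
      · obtain ⟨b', hb'⟩ := hun.exists_right_inv
        have h1 : (ι g * ι (D h) - ι h * ι (D g)) / ι g ^ 2 =
            ι h / ι g * (ι (b' * D b) - ι h / ι g * ι (b' * D a)) := by
          calc (ι g * ι (D h) - ι h * ι (D g)) / ι g ^ 2 =
              ι (b * b') * ((ι g * ι (D h) - ι h * ι (D g)) / ι g ^ 2) := by rw [hb', map_one, one_mul]
            _ = ι b' * (ι b * ((ι g * ι (D h) - ι h * ι (D g)) / ι g ^ 2)) := by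
                rw [map_mul]; ring
            _ = _ := by rw [hbW, map_mul, map_mul]; ring
        rw [h1]
        exact memk _ hc0 _ (Submodule.sub_mem _ (memO _) (memk _ hc0 _ (memO _)))
    exact hfin

end local_lemma

end Pool.Agent.Lib.MPbca609
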