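import Mathlib

/-!
The embedding of `k⟦X⟧[x]` into `k[x]⟦X⟧`.
-/

namespace Pool.Agent.Lib.MPbca609

open MvPolynomial

variable {σ k : Type} [Field k]

/-- The embedding of `k⟦X⟧[x]` into `k[x]⟦X⟧`. -/
noncomputable def rho (σ k : Type) [Field k] :
    MvPolynomial σ (PowerSeries k) →+* PowerSeries (MvPolynomial σ k) :=
  eval₂Hom (PowerSeries.map C) (fun i => PowerSeries.C (X i))

theorem rho_C (c : PowerSeries k) : rho σ k (C c) = PowerSeries.map C c := by
  simp [rho]

theorem rho_X (i : σ) : rho σ k (X i) = PowerSeries.C (X i) := by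
  simp [rho]

theorem rho_monomial (m : σ →₀ ℕ) (c : PowerSeries k) :
    rho σ k (monomial m c) = PowerSeries.map C c * PowerSeries.C (monomial m 1) := by
  have h1 : (monomial m (1 : k)) = m.prod fun i n => (X i : MvPolynomial σ k) ^ n := by
    rw [monomial_eq, C_1, one_mul]
  rw [monomial_eq, map_mul, rho_C, h1]
  simp only [Finsupp.prod, map_prod, map_pow, rho_X]

theorem coeff_rho (n : ℕ) (m : σ →₀ ℕ) (u : MvPolynomial σ (PowerSeries k)) :
    coeff m (PowerSeries.coeff n (rho σ k u)) = PowerSeries.coeff n (coeff m u) := by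
  classical
  induction u using MvPolynomial.induction_on' with
  | monomial m' c =>
    rw [rho_monomial, PowerSeries.coeff_mul_C, PowerSeries.coeff_map, C_mul_monomial, mul_one,
      coeff_monomial, coeff_monomial]
    split_ifs <;> simp
  | add p q hp hq => simp only [map_add, coeff_add, hp, hq]

theorem rho_injective : Function.Injective (rho σ k) := by
  intro u v h
  ext m n
  rw [← coeff_rho, ← coeff_rho, h]

/-- Descent of divisibility by a power of the uniformizer. -/
theorem dvd_of_rho {N : ℕ} {u : MvPolynomial σ (PowerSeries k)}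
    (h : (PowerSeries.X : PowerSeries (MvPolynomial σ k)) ^ N ∣ rho σ k u) :
    C ((PowerSeries.X : PowerSeries k) ^ N) ∣ u := by
  rw [C_dvd_iff_dvd_coeff]
  intro m
  rw [PowerSeries.X_pow_dvd_iff]
  intro n hn
  rw [← coeff_rho, (PowerSeries.X_pow_dvd_iff.1 h) n hn, coeff_zero]

theorem rho_C_X_pow (N : ℕ) :
    rho σ k (C ((PowerSeries.X : PowerSeries k) ^ N)) = (PowerSeries.X) ^ N := by
  rw [rho_C]; simp

theorem coeff_rho_homogeneousComponent (n d : ℕ) (u : MvPolynomial σ (PowerSeries k)) :
    PowerSeries.coeff n (rho σ k (homogeneousComponent d u)) =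
      homogeneousComponent d (PowerSeries.coeff n (rho σ k u)) := by
  classical
  ext m
  rw [coeff_rho, coeff_homogeneousComponent, coeff_homogeneousComponent]
  split_ifs
  · rw [coeff_rho]
  · simp

theorem coeff_rho_isHomogeneous {d : ℕ} {u : MvPolynomial σ (PowerSeries k)}
    (hu : u.IsHomogeneous d) (n : ℕ) : (PowerSeries.coeff n (rho σ k u)).IsHomogeneous d := by
  have h1 : homogeneousComponent d u = u := homogeneousComponent_eq_self hu
  rw [← h1, coeff_rho_homogeneousComponent]
  exact homogeneousComponent_isHomogeneous _ _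

/-- Every power series can be approximated by an element of `k⟦X⟧[x]`. -/
theorem exists_rho_approx (N : ℕ) (s : PowerSeries (MvPolynomial σ k)) :
    ∃ u : MvPolynomial σ (PowerSeries k), (PowerSeries.X) ^ N ∣ s - rho σ k u := by
  induction N with
  | zero => exact ⟨0, by simp⟩
  | succ N ih =>
    obtain ⟨u, r, hr⟩ := ih
    refine ⟨u + C (PowerSeries.X ^ N) * map PowerSeries.C (PowerSeries.constantCoeff r), ?_⟩
    have h1 : rho σ k (map PowerSeries.C (PowerSeries.constantCoeff r)) =
        PowerSeries.C (PowerSeries.constantCoeff r) := by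
      generalize PowerSeries.constantCoeff r = f
      induction f using MvPolynomial.induction_on with
      | C a => rw [map_C, rho_C]; simp
      | add p q hp hq => rw [map_add, map_add, hp, hq, map_add]
      | mul_X p i hp => rw [map_mul, map_mul, hp, map_X, rho_X, map_mul]
    rw [map_add, map_mul, h1, rho_C_X_pow, ← sub_sub, hr, ← mul_sub, pow_succ]
    refine mul_dvd_mul_left _ ?_
    rw [PowerSeries.X_dvd_iff]; simp

theorem rho_map_C (f : MvPolynomial σ k) : rho σ k (map PowerSeries.C f) = PowerSeries.C f := by
  induction f using MvPolynomial.induction_on with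
  | C a => rw [map_C, rho_C]; simp
  | add p q hp hq => rw [map_add, map_add, hp, hq, map_add]
  | mul_X p i hp => rw [map_mul, map_mul, hp, map_X, rho_X, map_mul]

theorem coeff_eval (n : ℕ) (a : σ → k) (u : MvPolynomial σ (PowerSeries k)) :
    PowerSeries.coeff n (eval (fun i => PowerSeries.C (a i)) u) =
      eval a (PowerSeries.coeff n (rho σ k u)) := by
  have h : (PowerSeries.map (eval a)).comp (rho σ k) = eval (fun i => PowerSeries.C (a i)) := by
    apply MvPolynomial.ringHom_ext
    · intro c
      rw [RingHom.comp_apply, rho_C, eval_C]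
      ext n
      simp
    · intro i
      rw [RingHom.comp_apply, rho_X, eval_X]
      simp
  rw [← h, RingHom.comp_apply, PowerSeries.coeff_map]

end Pool.Agent.Lib.MPbca609
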