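import Mathlib
import Pool.Agent.Lib.MP_bca609_ag.Local3
import Pool.Agent.Lib.MP_bca609_ag.Global2
import Pool.Agent.Lib.MP_bca609_ag.Global3
import Pool.Agent.Lib.MP_bca609_ag.Ring1

/-!
The local lattices of a graded module and the main dichotomy.
-/

namespace Pool.Agent.Lib.MPbca609

open MvPolynomial IsLocalRing

noncomputable section

variable {σ k : Type} [Field k]

/-- The maximal ideal of a point. -/
def mIdeal (a : σ → k) : Ideal (MvPolynomial σ k) := RingHom.ker (eval a)

instance (a : σ → k) : (mIdeal a).IsPrime := RingHom.ker_isPrime _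

theorem mem_mIdeal (a : σ → k) (x : MvPolynomial σ k) : x ∈ mIdeal a ↔ eval a x = 0 :=
  RingHom.mem_ker

/-- The local ring of affine space at a point. -/
abbrev Loc (a : σ → k) : Type := Localization.AtPrime (mIdeal a)

instance (a : σ → k) : IsDomain (Loc a) :=
  IsLocalization.isDomain_localization (Ideal.primeCompl_le_nonZeroDivisors (mIdeal a))

instance (a : σ → k) : UniqueFactorizationMonoid (Loc a) :=
  UniqueFactorizationMonoid.of_isLocalization (mIdeal a).primeCompl (Loc a)

theorem algebraMap_mem_maximalIdeal (a : σ → k) (x : MvPolynomial σ k) :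
    algebraMap (MvPolynomial σ k) (Loc a) x ∈ maximalIdeal (Loc a) ↔ eval a x = 0 := by
  rw [IsLocalization.AtPrime.to_map_mem_maximal_iff (Loc a) (mIdeal a) x, mem_mIdeal]

theorem algebraMap_loc_injective (a : σ → k) :
    Function.Injective (algebraMap (MvPolynomial σ k) (Loc a)) :=
  IsLocalization.injective _ (Ideal.primeCompl_le_nonZeroDivisors (mIdeal a))

theorem residue_const (a : σ → k) (x : Loc a) :
    ∃ c : k, x - algebraMap k (Loc a) c ∈ maximalIdeal (Loc a) := by
  obtain ⟨p, q, rfl⟩ := IsLocalization.exists_mk'_eq (mIdeal a).primeCompl x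
  have hq : eval a (q : MvPolynomial σ k) ≠ 0 := fun h => q.2 ((mem_mIdeal a _).2 h)
  refine ⟨eval a p / eval a (q : MvPolynomial σ k), ?_⟩
  have hu : IsUnit (algebraMap (MvPolynomial σ k) (Loc a) q) := IsLocalization.map_units _ q
  have h1 : algebraMap (MvPolynomial σ k) (Loc a) q *
      (IsLocalization.mk' (Loc a) p q - algebraMap k (Loc a) (eval a p / eval a (q : MvPolynomial σ k))) =
      algebraMap (MvPolynomial σ k) (Loc a)
        (p - (q : MvPolynomial σ k) * C (eval a p / eval a (q : MvPolynomial σ k))) := by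
    rw [mul_sub, IsLocalization.mk'_spec', map_sub, map_mul]
    congr 2
  have h2 : algebraMap (MvPolynomial σ k) (Loc a) q *
      (IsLocalization.mk' (Loc a) p q - algebraMap k (Loc a) (eval a p / eval a (q : MvPolynomial σ k))) ∈
      maximalIdeal (Loc a) := by
    rw [h1, algebraMap_mem_maximalIdeal]
    simp only [map_sub, map_mul, eval_C]
    field_simp
    ring
  by_contra h3
  exact (mem_maximalIdeal _).1 h2 (hu.mul (by
    by_contra h4; exact h3 ((mem_maximalIdeal _).2 h4)))

/-- The embedding of the local ring in the fraction field. -/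
def locToFrac (a : σ → k) : Loc a →+* FractionRing (MvPolynomial σ k) :=
  IsLocalization.lift (M := (mIdeal a).primeCompl)
    (g := algebraMap (MvPolynomial σ k) (FractionRing (MvPolynomial σ k)))
    (fun y => by
      refine IsUnit.mk0 _ ?_
      intro h0
      have : (y : MvPolynomial σ k) = 0 :=
        IsFractionRing.injective (MvPolynomial σ k) (FractionRing (MvPolynomial σ k))
          (by rw [h0, map_zero])
      exact y.2 (by rw [this]; exact (mIdeal a).zero_mem))

theorem locToFrac_algebraMap (a : σ → k) (x : MvPolynomial σ k) :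
    locToFrac a (algebraMap _ (Loc a) x) = algebraMap _ (FractionRing (MvPolynomial σ k)) x :=
  IsLocalization.lift_eq _ _

theorem locToFrac_injective (a : σ → k) : Function.Injective (locToFrac a) := by
  rw [injective_iff_map_eq_zero]
  intro x hx
  obtain ⟨p, q, rfl⟩ := IsLocalization.exists_mk'_eq (mIdeal a).primeCompl x
  have h1 : algebraMap (MvPolynomial σ k) (FractionRing (MvPolynomial σ k)) p = 0 := by
    rw [← locToFrac_algebraMap a p, ← IsLocalization.mk'_spec' (Loc a) p q, map_mul, hx, mul_zero]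
  have h2 : p = 0 := IsFractionRing.injective (MvPolynomial σ k) (FractionRing (MvPolynomial σ k))
    (by rw [h1, map_zero])
  rw [h2, IsLocalization.mk'_zero]

/-- The localization of `rho`. -/
def rhoA (a : σ → k) : MvPolynomial σ (PowerSeries k) →+* PowerSeries (Loc a) :=
  (PowerSeries.map (algebraMap _ _)).comp (rho σ k)

theorem coeff_rhoA (a : σ → k) (n : ℕ) (u : MvPolynomial σ (PowerSeries k)) :
    PowerSeries.coeff n (rhoA a u) = algebraMap _ _ (PowerSeries.coeff n (rho σ k u)) := by
  rw [rhoA, RingHom.comp_apply, PowerSeries.coeff_map]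

/-- Componentwise `rhoA`. -/
def vmap (a : σ → k) (u : Fin 2 → MvPolynomial σ (PowerSeries k)) :
    Fin 2 → PowerSeries (Loc a) := fun j => rhoA a (u j)

theorem vmap_add (a : σ → k) (u v : Fin 2 → MvPolynomial σ (PowerSeries k)) :
    vmap a (u + v) = vmap a u + vmap a v := by
  ext1 j; simp [vmap]

theorem vmap_smul (a : σ → k) (c : MvPolynomial σ (PowerSeries k))
    (u : Fin 2 → MvPolynomial σ (PowerSeries k)) :
    vmap a (c • u) = rhoA a c • vmap a u := by
  ext1 j; simp [vmap]

/-- The local lattice. -/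
def Lat (M : Submodule (MvPolynomial σ (PowerSeries k)) (Fin 2 → MvPolynomial σ (PowerSeries k)))
    (a : σ → k) : Submodule (PowerSeries (Loc a)) (Fin 2 → PowerSeries (Loc a)) :=
  Submodule.span _ (vmap a '' M)

theorem vmap_mem_Lat {M : Submodule (MvPolynomial σ (PowerSeries k))
    (Fin 2 → MvPolynomial σ (PowerSeries k))} (a : σ → k)
    {u : Fin 2 → MvPolynomial σ (PowerSeries k)} (hu : u ∈ M) : vmap a u ∈ Lat M a :=
  Submodule.subset_span ⟨u, hu, rfl⟩

/-- The internal notion of a good graded lattice. -/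
structure Good (M : Submodule (MvPolynomial σ (PowerSeries k))
    (Fin 2 → MvPolynomial σ (PowerSeries k))) : Prop where
  hom : ∀ u ∈ M, ∀ d : ℕ, (fun j => homogeneousComponent d (u j)) ∈ M
  gen : ∃ N : ℕ, ∀ u : Fin 2 → MvPolynomial σ (PowerSeries k),
    (C ((PowerSeries.X : PowerSeries k) ^ N) : MvPolynomial σ (PowerSeries k)) • u ∈ M
  fg2 : ∀ a : σ → k, a ≠ 0 → ∃ A B, Lat M a = Submodule.span _ {A, B}
  cond : ∀ a : σ → k, a ≠ 0 → ∃ u ∈ M, ∃ j,
    ¬ (PowerSeries.X : PowerSeries k) ^ 2 ∣ eval (fun i => PowerSeries.C (a i)) (u j)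

theorem rhoA_C_X_pow (a : σ → k) (N : ℕ) :
    rhoA a (C ((PowerSeries.X : PowerSeries k) ^ N)) = PowerSeries.X ^ N := by
  rw [rhoA, RingHom.comp_apply, rho_C_X_pow]; simp

/-- `X ^ N` times anything lies in the local lattice. -/
theorem X_pow_smul_mem_Lat {M : Submodule (MvPolynomial σ (PowerSeries k))
    (Fin 2 → MvPolynomial σ (PowerSeries k))} (a : σ → k) {N : ℕ}
    (hN : ∀ u : Fin 2 → MvPolynomial σ (PowerSeries k),
      (C ((PowerSeries.X : PowerSeries k) ^ N) : MvPolynomial σ (PowerSeries k)) • u ∈ M)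
    (v : Fin 2 → PowerSeries (Loc a)) : (PowerSeries.X : PowerSeries (Loc a)) ^ N • v ∈ Lat M a := by
  have h1 : ∀ j : Fin 2, (PowerSeries.X : PowerSeries (Loc a)) ^ N •
      (Pi.single j 1 : Fin 2 → PowerSeries (Loc a)) ∈ Lat M a := by
    intro j
    have h2 := vmap_mem_Lat a (hN (Pi.single j 1))
    rw [vmap_smul, rhoA_C_X_pow] at h2
    have h3 : vmap a (Pi.single j 1) = (Pi.single j 1 : Fin 2 → PowerSeries (Loc a)) := by
      ext1 i
      by_cases hij : i = j
      · subst hij; simp [vmap]
      · simp [vmap, hij]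
    rwa [h3] at h2
  have h4 : (PowerSeries.X : PowerSeries (Loc a)) ^ N • v =
      v 0 • ((PowerSeries.X : PowerSeries (Loc a)) ^ N •
        (Pi.single 0 1 : Fin 2 → PowerSeries (Loc a))) +
      v 1 • ((PowerSeries.X : PowerSeries (Loc a)) ^ N •
        (Pi.single 1 1 : Fin 2 → PowerSeries (Loc a))) := by
    ext1 i
    fin_cases i <;> simp [mul_comm]
  rw [h4]
  exact Submodule.add_mem _ (Submodule.smul_mem _ _ (h1 0)) (Submodule.smul_mem _ _ (h1 1))

theorem rho_wedge (u v : Fin 2 → MvPolynomial σ (PowerSeries k)) :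
    rho σ k (wedge u v) = wedge (fun j => rho σ k (u j)) (fun j => rho σ k (v j)) := by
  simp [wedge]

theorem rhoA_wedge (a : σ → k) (u v : Fin 2 → MvPolynomial σ (PowerSeries k)) :
    rhoA a (wedge u v) = wedge (vmap a u) (vmap a v) := by
  simp [wedge, vmap]

theorem wedge_add_right {R : Type*} [CommRing R] (a b c : Fin 2 → R) :
    wedge a (b + c) = wedge a b + wedge a c := by
  simp only [wedge, Pi.add_apply]; ring

theorem wedge_add_left {R : Type*} [CommRing R] (a b c : Fin 2 → R) :
    wedge (a + b) c = wedge a c + wedge b c := by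
  simp only [wedge, Pi.add_apply]; ring

theorem wedge_smul_right {R : Type*} [CommRing R] (r : R) (a b : Fin 2 → R) :
    wedge a (r • b) = r * wedge a b := by
  simp only [wedge, Pi.smul_apply, smul_eq_mul]; ring

theorem wedge_smul_left {R : Type*} [CommRing R] (r : R) (a b : Fin 2 → R) :
    wedge (r • a) b = r * wedge a b := by
  simp only [wedge, Pi.smul_apply, smul_eq_mul]; ring

/-- If all wedges of elements of `M` are divisible by the uniformizer, so are those of the local
lattices. -/
theorem coeff_zero_wedge_Lat {M : Submodule (MvPolynomial σ (PowerSeries k))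
    (Fin 2 → MvPolynomial σ (PowerSeries k))}
    (hdeg : ∀ u ∈ M, ∀ v ∈ M, PowerSeries.coeff 0 (rho σ k (wedge u v)) = 0) (a : σ → k)
    (x : Fin 2 → PowerSeries (Loc a)) (hx : x ∈ Lat M a)
    (y : Fin 2 → PowerSeries (Loc a)) (hy : y ∈ Lat M a) :
    PowerSeries.coeff 0 (wedge x y) = 0 := by
  unfold Lat at hx hy
  induction hx using Submodule.span_induction with
  | mem x hx =>
    obtain ⟨u, hu, rfl⟩ := hx
    induction hy using Submodule.span_induction with
    | mem y hy =>
      obtain ⟨v, hv, rfl⟩ := hy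
      rw [← rhoA_wedge, coeff_rhoA, hdeg u hu v hv, map_zero]
    | zero => simp [wedge]
    | add y z _ _ ihy ihz => rw [wedge_add_right, map_add, ihy, ihz, add_zero]
    | smul r y _ ih =>
      rw [wedge_smul_right]
      rw [PowerSeries.coeff_zero_eq_constantCoeff_apply] at ih ⊢
      rw [map_mul, ih, mul_zero]
  | zero => simp [wedge]
  | add x z _ _ ihx ihz => rw [wedge_add_left, map_add, ihx, ihz, add_zero]
  | smul r x _ ih =>
    rw [wedge_smul_left]
    rw [PowerSeries.coeff_zero_eq_constantCoeff_apply] at ih ⊢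
    rw [map_mul, ih, mul_zero]

end

end Pool.Agent.Lib.MPbca609
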