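import Mathlib
import Pool.Agent.Lib.MP_bca609_ag.Lat1

/-!
Passing to a smaller lattice, and descent from the local lattices.
-/

namespace Pool.Agent.Lib.MPbca609

open MvPolynomial IsLocalRing Matrix

noncomputable section

variable {σ k : Type} [Field k]

theorem rhoA_injective (a : σ → k) : Function.Injective (rhoA a) := by
  intro u v h
  apply rho_injective
  ext1 n
  apply algebraMap_loc_injective a
  rw [← coeff_rhoA, ← coeff_rhoA, h]

/-- The action of a constant matrix. -/
def act (P : Matrix (Fin 2) (Fin 2) (PowerSeries k)) :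
    (Fin 2 → MvPolynomial σ (PowerSeries k)) →ₗ[MvPolynomial σ (PowerSeries k)]
      (Fin 2 → MvPolynomial σ (PowerSeries k)) := Matrix.mulVecLin (P.map C)

theorem act_apply (P : Matrix (Fin 2) (Fin 2) (PowerSeries k))
    (u : Fin 2 → MvPolynomial σ (PowerSeries k)) (i : Fin 2) :
    act P u i = C (P i 0) * u 0 + C (P i 1) * u 1 := by
  simp [act, Matrix.mulVec, dotProduct, Fin.sum_univ_two]

theorem act_mul (P Q : Matrix (Fin 2) (Fin 2) (PowerSeries k))
    (u : Fin 2 → MvPolynomial σ (PowerSeries k)) : act (P * Q) u = act P (act Q u) := by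
  simp only [act, Matrix.mulVecLin_apply, Matrix.mulVec_mulVec]
  congr 1
  exact Matrix.map_mul

theorem act_one (u : Fin 2 → MvPolynomial σ (PowerSeries k)) :
    act (1 : Matrix (Fin 2) (Fin 2) (PowerSeries k)) u = u := by
  simp only [act, Matrix.mulVecLin_apply]
  rw [Matrix.map_one _ (map_zero _) (map_one _), Matrix.one_mulVec]

theorem wedge_act (P : Matrix (Fin 2) (Fin 2) (PowerSeries k))
    (u v : Fin 2 → MvPolynomial σ (PowerSeries k)) :
    wedge (act P u) (act P v) = C P.det * wedge u v := by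
  simp only [wedge, act_apply, Matrix.det_fin_two, map_sub, map_mul]
  ring

/-- The transported lattice. -/
def pull (P : Matrix (Fin 2) (Fin 2) (PowerSeries k))
    (M : Submodule (MvPolynomial σ (PowerSeries k)) (Fin 2 → MvPolynomial σ (PowerSeries k))) :
    Submodule (MvPolynomial σ (PowerSeries k)) (Fin 2 → MvPolynomial σ (PowerSeries k)) :=
  M.comap (act P)

theorem mem_pull {P : Matrix (Fin 2) (Fin 2) (PowerSeries k)}
    {M : Submodule (MvPolynomial σ (PowerSeries k)) (Fin 2 → MvPolynomial σ (PowerSeries k))}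
    {u : Fin 2 → MvPolynomial σ (PowerSeries k)} : u ∈ pull P M ↔ act P u ∈ M := Iff.rfl

/-- The action on local vectors. -/
def actA (a : σ → k) (P : Matrix (Fin 2) (Fin 2) (PowerSeries k)) :
    (Fin 2 → PowerSeries (Loc a)) →ₗ[PowerSeries (Loc a)] (Fin 2 → PowerSeries (Loc a)) :=
  Matrix.mulVecLin (P.map (fun c => rhoA a (C c)))

theorem actA_apply (a : σ → k) (P : Matrix (Fin 2) (Fin 2) (PowerSeries k))
    (u : Fin 2 → PowerSeries (Loc a)) (i : Fin 2) :
    actA a P u i = rhoA a (C (P i 0)) * u 0 + rhoA a (C (P i 1)) * u 1 := by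
  simp [actA, Matrix.mulVec, dotProduct, Fin.sum_univ_two]

theorem vmap_act (a : σ → k) (P : Matrix (Fin 2) (Fin 2) (PowerSeries k))
    (u : Fin 2 → MvPolynomial σ (PowerSeries k)) : vmap a (act P u) = actA a P (vmap a u) := by
  ext1 i
  rw [actA_apply]
  simp [vmap, act_apply]

theorem actA_injective (a : σ → k) {P : Matrix (Fin 2) (Fin 2) (PowerSeries k)}
    (hP : P.det ≠ 0) : Function.Injective (actA a P) := by
  rw [injective_iff_map_eq_zero]
  intro v hv
  have hd : (rhoA a (C P.det)) ≠ 0 := by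
    intro h0
    have : (C P.det : MvPolynomial σ (PowerSeries k)) = 0 := rhoA_injective a (by rw [h0, map_zero])
    exact hP (by simpa using this)
  have h0 : actA a P v 0 = 0 := by rw [hv]; rfl
  have h1 : actA a P v 1 = 0 := by rw [hv]; rfl
  rw [actA_apply] at h0 h1
  have hdet : rhoA a (C P.det) = rhoA a (C (P 0 0)) * rhoA a (C (P 1 1)) -
      rhoA a (C (P 0 1)) * rhoA a (C (P 1 0)) := by
    rw [Matrix.det_fin_two]; simp
  ext1 i
  fin_cases i
  · have : rhoA a (C P.det) * v 0 = 0 := by
      rw [hdet]; linear_combination rhoA a (C (P 1 1)) * h0 - rhoA a (C (P 0 1)) * h1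
    exact (mul_eq_zero.1 this).resolve_left hd
  · have : rhoA a (C P.det) * v 1 = 0 := by
      rw [hdet]; linear_combination rhoA a (C (P 0 0)) * h1 - rhoA a (C (P 1 0)) * h0
    exact (mul_eq_zero.1 this).resolve_left hd

theorem Lat_pull (a : σ → k) (P : Matrix (Fin 2) (Fin 2) (PowerSeries k))
    {M : Submodule (MvPolynomial σ (PowerSeries k)) (Fin 2 → MvPolynomial σ (PowerSeries k))}
    (hle : ∀ u ∈ M, ∃ v, u = act P v) : Lat M a = (Lat (pull P M) a).map (actA a P) := by
  unfold Lat
  rw [Submodule.map_span]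
  congr 1
  ext x
  constructor
  · rintro ⟨u, hu, rfl⟩
    obtain ⟨v, rfl⟩ := hle u hu
    exact ⟨vmap a v, ⟨v, hu, rfl⟩, (vmap_act a P v).symm⟩
  · rintro ⟨_, ⟨v, hv, rfl⟩, rfl⟩
    exact ⟨act P v, hv, vmap_act a P v⟩

theorem Good.pull {M : Submodule (MvPolynomial σ (PowerSeries k))
    (Fin 2 → MvPolynomial σ (PowerSeries k))} (hM : Good M)
    {P : Matrix (Fin 2) (Fin 2) (PowerSeries k)} (hP : P.det ≠ 0)
    (hle : ∀ u ∈ M, ∃ v, u = act P v) : Good (pull P M) where
  hom := by
    intro u hu d
    have h1 := hM.hom _ hu d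
    rw [mem_pull]
    have h2 : act P (fun j => homogeneousComponent d (u j)) =
        fun j => homogeneousComponent d (act P u j) := by
      ext1 j
      rw [act_apply, act_apply, map_add, homogeneousComponent_C_mul, homogeneousComponent_C_mul]
    rw [h2]; exact h1
  gen := by
    obtain ⟨N, hN⟩ := hM.gen
    refine ⟨N, fun u => ?_⟩
    rw [mem_pull, map_smul]
    exact hN _
  fg2 := by
    intro a ha
    obtain ⟨A, B, hAB⟩ := hM.fg2 a ha
    rw [Lat_pull a P hle] at hAB
    have hA : A ∈ (Lat (MPbca609.pull P M) a).map (actA a P) := by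
      rw [hAB]; exact Submodule.subset_span (by simp)
    have hB : B ∈ (Lat (MPbca609.pull P M) a).map (actA a P) := by
      rw [hAB]; exact Submodule.subset_span (by simp)
    obtain ⟨A1, hA1, rfl⟩ := hA
    obtain ⟨B1, hB1, rfl⟩ := hB
    refine ⟨A1, B1, le_antisymm ?_ ?_⟩
    · intro x hx
      have h1 : actA a P x ∈ Submodule.span (PowerSeries (Loc a)) {actA a P A1, actA a P B1} := by
        rw [← hAB]; exact ⟨x, hx, rfl⟩
      rw [mem_span_pair'] at h1 ⊢
      obtain ⟨c, d, h1⟩ := h1
      refine ⟨c, d, ?_⟩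
      apply actA_injective a hP
      rw [h1, map_add, map_smul, map_smul]
    · rw [Submodule.span_le]
      rintro x hx
      rcases hx with rfl | hx
      · exact hA1
      · rw [Set.mem_singleton_iff] at hx; rw [hx]; exact hB1
  cond := by
    intro a ha
    obtain ⟨u, hu, j, hj⟩ := hM.cond a ha
    obtain ⟨v, rfl⟩ := hle u hu
    refine ⟨v, hu, ?_⟩
    by_contra hcon
    push Not at hcon
    apply hj
    rw [act_apply, map_add, map_mul, map_mul]
    exact dvd_add ((hcon 0).mul_left _) ((hcon 1).mul_left _)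

/-- Clearing denominators modulo a power of the uniformizer. -/
theorem exists_clear (a : σ → k) (N : ℕ) (r : PowerSeries (Loc a)) :
    ∃ (q : MvPolynomial σ k) (s : MvPolynomial σ (PowerSeries k)), eval a q ≠ 0 ∧
      (PowerSeries.X : PowerSeries (Loc a)) ^ N ∣
        rhoA a (map PowerSeries.C q) * r - rhoA a s := by
  induction N with
  | zero => exact ⟨1, 0, by simp, by simp⟩
  | succ N ih =>
    obtain ⟨q, s, hq, z, hz⟩ := ih
    obtain ⟨p, q1, hpq⟩ := IsLocalization.exists_mk'_eq (mIdeal a).primeCompl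
      (PowerSeries.constantCoeff z)
    have hq1 : eval a (q1 : MvPolynomial σ k) ≠ 0 := fun h => q1.2 ((mem_mIdeal a _).2 h)
    have hrm : ∀ f : MvPolynomial σ k, rhoA a (map PowerSeries.C f) =
        PowerSeries.C (algebraMap _ (Loc a) f) := by
      intro f
      rw [rhoA, RingHom.comp_apply, rho_map_C]; simp
    refine ⟨q1 * q, map PowerSeries.C (q1 : MvPolynomial σ k) * s +
      C ((PowerSeries.X : PowerSeries k) ^ N) * map PowerSeries.C p, ?_, ?_⟩
    · rw [map_mul]; exact mul_ne_zero hq1 hq
    · obtain ⟨z', hz'⟩ := eq_C_add_X_mul z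
      have h2 : algebraMap (MvPolynomial σ k) (Loc a) q1 * PowerSeries.constantCoeff z =
          algebraMap _ (Loc a) p := by
        rw [← hpq, IsLocalization.mk'_spec']
      have h3 : rhoA a (map PowerSeries.C ((q1 : MvPolynomial σ k) * q)) * r -
          rhoA a (map PowerSeries.C (q1 : MvPolynomial σ k) * s +
            C ((PowerSeries.X : PowerSeries k) ^ N) * map PowerSeries.C p) =
          PowerSeries.X ^ (N + 1) *
            (PowerSeries.C (algebraMap (MvPolynomial σ k) (Loc a) q1) * z') := by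
        rw [map_mul, map_mul, map_add, map_mul, map_mul, rhoA_C_X_pow, hrm q1, hrm p, ← h2,
          map_mul]
        have h4 : PowerSeries.C (algebraMap (MvPolynomial σ k) (Loc a) q1) *
            (rhoA a (map PowerSeries.C q) * r - rhoA a s) =
            PowerSeries.C (algebraMap (MvPolynomial σ k) (Loc a) q1) * (PowerSeries.X ^ N * z) := by
          rw [hz]
        have h5 : PowerSeries.C (algebraMap (MvPolynomial σ k) (Loc a) q1) * (PowerSeries.X ^ N * z) =
            PowerSeries.C (algebraMap (MvPolynomial σ k) (Loc a) q1) *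
            (PowerSeries.X ^ N * (PowerSeries.C (PowerSeries.constantCoeff z) +
              PowerSeries.X * z')) := by
          rw [← hz']
        rw [h5] at h4
        linear_combination h4
      rw [h3]
      exact dvd_mul_right _ _

/-- Elements of the local lattice come from `M` up to denominators and high powers. -/
theorem exists_of_mem_Lat {M : Submodule (MvPolynomial σ (PowerSeries k))
    (Fin 2 → MvPolynomial σ (PowerSeries k))} (a : σ → k) (N : ℕ)
    (x : Fin 2 → PowerSeries (Loc a)) (hx : x ∈ Lat M a) :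
    ∃ q : MvPolynomial σ k, eval a q ≠ 0 ∧ ∃ m ∈ M, ∀ j,
      (PowerSeries.X : PowerSeries (Loc a)) ^ N ∣
        rhoA a (map PowerSeries.C q) * x j - vmap a m j := by
  unfold Lat at hx
  induction hx using Submodule.span_induction with
  | mem x hx =>
    obtain ⟨u, hu, rfl⟩ := hx
    exact ⟨1, by simp, u, hu, fun j => by simp⟩
  | zero => exact ⟨1, by simp, 0, M.zero_mem, fun j => by simp [vmap]⟩
  | add x y _ _ ihx ihy =>
    obtain ⟨q, hq, m, hm, hx⟩ := ihx
    obtain ⟨q', hq', m', hm', hy⟩ := ihy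
    refine ⟨q * q', by rw [map_mul]; exact mul_ne_zero hq hq',
      map PowerSeries.C q' • m + map PowerSeries.C q • m',
      M.add_mem (M.smul_mem _ hm) (M.smul_mem _ hm'), fun j => ?_⟩
    have h1 : rhoA a (map PowerSeries.C (q * q')) * (x + y) j -
        vmap a (map PowerSeries.C q' • m + map PowerSeries.C q • m') j =
        rhoA a (map PowerSeries.C q') * (rhoA a (map PowerSeries.C q) * x j - vmap a m j) +
        rhoA a (map PowerSeries.C q) * (rhoA a (map PowerSeries.C q') * y j - vmap a m' j) := by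
      rw [vmap_add, vmap_smul, vmap_smul]
      simp only [Pi.add_apply, Pi.smul_apply, smul_eq_mul, map_mul]
      ring
    rw [h1]
    exact dvd_add ((hx j).mul_left _) ((hy j).mul_left _)
  | smul r x _ ih =>
    obtain ⟨q, hq, m, hm, hx⟩ := ih
    obtain ⟨q', s, hq', hs⟩ := exists_clear a N r
    refine ⟨q' * q, by rw [map_mul]; exact mul_ne_zero hq' hq, s • m, M.smul_mem _ hm,
      fun j => ?_⟩
    have h1 : rhoA a (map PowerSeries.C (q' * q)) * (r • x) j - vmap a (s • m) j =
        (rhoA a (map PowerSeries.C q') * r) *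
          (rhoA a (map PowerSeries.C q) * x j - vmap a m j) +
        (rhoA a (map PowerSeries.C q') * r - rhoA a s) * vmap a m j := by
      rw [vmap_smul]
      simp only [Pi.smul_apply, smul_eq_mul, map_mul]
      ring
    rw [h1]
    exact dvd_add ((hx j).mul_left _) (hs.mul_right _)

/-- Descent: a vector lying in the local lattice at `a` lies in `M` after multiplication by a
polynomial not vanishing at `a`. -/
theorem exists_smul_mem {M : Submodule (MvPolynomial σ (PowerSeries k))
    (Fin 2 → MvPolynomial σ (PowerSeries k))} (a : σ → k) {N : ℕ}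
    (hN : ∀ u : Fin 2 → MvPolynomial σ (PowerSeries k),
      (C ((PowerSeries.X : PowerSeries k) ^ N) : MvPolynomial σ (PowerSeries k)) • u ∈ M)
    (v : Fin 2 → MvPolynomial σ (PowerSeries k)) (hv : vmap a v ∈ Lat M a) :
    ∃ q : MvPolynomial σ k, eval a q ≠ 0 ∧ map PowerSeries.C q • v ∈ M := by
  obtain ⟨q, hq, m, hm, h⟩ := exists_of_mem_Lat a N _ hv
  refine ⟨q, hq, ?_⟩
  have h1 : ∀ j, C ((PowerSeries.X : PowerSeries k) ^ N) ∣ map PowerSeries.C q * v j - m j := by
    intro j
    apply dvd_of_rho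
    rw [PowerSeries.X_pow_dvd_iff]
    intro n hn
    apply algebraMap_loc_injective a
    rw [← coeff_rhoA, map_zero]
    have h2 : rhoA a (map PowerSeries.C q * v j - m j) =
        rhoA a (map PowerSeries.C q) * vmap a v j - vmap a m j := by
      rw [map_sub, map_mul]; rfl
    rw [h2]
    exact PowerSeries.X_pow_dvd_iff.1 (h j) n hn
  choose w hw using h1
  have h3 : map PowerSeries.C q • v =
      m + (C ((PowerSeries.X : PowerSeries k) ^ N) : MvPolynomial σ (PowerSeries k)) • w := by
    ext1 j
    simp only [Pi.add_apply, Pi.smul_apply, smul_eq_mul]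
    rw [← hw j]; ring
  rw [h3]
  exact M.add_mem hm (hN w)

/-- The base case. -/
theorem base_case [Finite σ] [IsAlgClosed k] {M : Submodule (MvPolynomial σ (PowerSeries k))
    (Fin 2 → MvPolynomial σ (PowerSeries k))} (hM : Good M)
    (hne : ∃ u ∈ M, ∃ v ∈ M, PowerSeries.coeff 0 (rho σ k (wedge u v)) ≠ 0)
    (w : Fin 2 → MvPolynomial σ (PowerSeries k)) :
    ∃ N : ℕ, ∀ i : σ, (X i : MvPolynomial σ (PowerSeries k)) ^ N • w ∈ M := by
  obtain ⟨u, hu, v, hv, huv⟩ := hne
  obtain ⟨N, hN⟩ := hM.gen
  have hloc : ∀ a : σ → k, a ≠ 0 → ∃ q : MvPolynomial σ k, eval a q ≠ 0 ∧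
      map PowerSeries.C q • w ∈ M := by
    intro a ha
    apply exists_smul_mem a hN
    obtain ⟨A, B, hAB⟩ := hM.fg2 a ha
    obtain ⟨n, υ, hυ, hwedge⟩ := wedge_generators (Lat M a) A B hAB N (X_pow_smul_mem_Lat a hN)
    have hu' := vmap_mem_Lat a hu
    have hv' := vmap_mem_Lat a hv
    rw [hAB, mem_span_pair'] at hu' hv'
    obtain ⟨c, d, hu'⟩ := hu'
    obtain ⟨e, f, hv'⟩ := hv'
    have h1 : rhoA a (wedge u v) = (c * f - d * e) * (PowerSeries.X ^ n * υ) := by
      rw [rhoA_wedge, hu', hv', wedge_add_smul, hwedge]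
    have hn : n = 0 := by
      by_contra hn
      obtain ⟨i, rfl⟩ : ∃ i, n = i + 1 := ⟨n - 1, by omega⟩
      have h2 : (PowerSeries.X : PowerSeries (Loc a)) ∣ rhoA a (wedge u v) := by
        rw [h1]; exact ⟨(c * f - d * e) * (PowerSeries.X ^ i * υ), by ring⟩
      rw [PowerSeries.X_dvd_iff, ← PowerSeries.coeff_zero_eq_constantCoeff_apply,
        coeff_rhoA] at h2
      exact huv (algebraMap_loc_injective a (by rw [h2, map_zero]))
    subst hn
    rw [pow_zero, one_mul] at hwedge
    obtain ⟨υ', hυ'⟩ := hυ.exists_right_inv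
    rw [hAB, mem_span_pair']
    refine ⟨υ' * wedge (vmap a w) B, - (υ' * wedge (vmap a w) A), ?_⟩
    have h3 : ∀ j, wedge A B * vmap a w j = wedge (vmap a w) B * A j - wedge (vmap a w) A * B j := by
      intro j
      fin_cases j <;> (simp only [wedge]; ring_nf) <;> simp <;> ring
    ext1 j
    simp only [Pi.add_apply, Pi.smul_apply, smul_eq_mul]
    calc vmap a w j = (υ * υ') * vmap a w j := by rw [hυ', one_mul]
      _ = υ' * (wedge A B * vmap a w j) := by rw [hwedge]; ring
      _ = _ := by rw [h3]; ring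
  let J : Ideal (MvPolynomial σ k) :=
    { carrier := {q | map PowerSeries.C q • w ∈ M}
      add_mem' := by
        intro p q hp hq
        show map PowerSeries.C (p + q) • w ∈ M
        rw [map_add, add_smul]; exact M.add_mem hp hq
      zero_mem' := by
        show MvPolynomial.map PowerSeries.C (0 : MvPolynomial σ k) • w ∈ M
        rw [map_zero, zero_smul]; exact M.zero_mem
      smul_mem' := by
        intro c q hq
        show map PowerSeries.C (c * q) • w ∈ M
        rw [map_mul, mul_smul]; exact M.smul_mem _ hq }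
  obtain ⟨N', hN'⟩ := exists_X_pow_mem J (fun a ha => by
    obtain ⟨q, hq, hqw⟩ := hloc a ha
    exact ⟨q, hqw, hq⟩)
  refine ⟨N', fun i => ?_⟩
  have := hN' i
  have h4 : map PowerSeries.C ((X i : MvPolynomial σ k) ^ N') • w ∈ M := this
  rwa [map_pow, map_X] at h4

end

end Pool.Agent.Lib.MPbca609
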