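import Mathlib
import Pool.Agent.Lib.MP_bca609_ag.Lat1

/-!
The main dichotomy: if all wedges of a good lattice vanish modulo the uniformizer, then the
reduction of the lattice is zero or has constant direction.
-/

namespace Pool.Agent.Lib.MPbca609

open MvPolynomial IsLocalRing

noncomputable section

variable {σ k : Type} [Field k]

theorem mul_mem_span {Ω : Type} [Field Ω] [Algebra (MvPolynomial σ k) Ω] (k' : Subfield Ω)
    (f : MvPolynomial σ k) (y : Ω)
    (hy : y ∈ Submodule.span k' (Set.range (algebraMap (MvPolynomial σ k) Ω))) :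
    algebraMap _ Ω f * y ∈ Submodule.span k' (Set.range (algebraMap (MvPolynomial σ k) Ω)) := by
  induction hy using Submodule.span_induction with
  | mem x hx =>
    obtain ⟨g, rfl⟩ := hx
    rw [← map_mul]; exact Submodule.subset_span ⟨_, rfl⟩
  | zero => rw [mul_zero]; exact Submodule.zero_mem _
  | add x y _ _ ihx ihy => rw [mul_add]; exact Submodule.add_mem _ ihx ihy
  | smul a x _ ih => rw [mul_smul_comm]; exact Submodule.smul_mem _ _ ih

theorem exists_mul_mem_span (a : σ → k) (k' : Subfield (FractionRing (MvPolynomial σ k)))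
    (y : FractionRing (MvPolynomial σ k))
    (hy : y ∈ Submodule.span k' (Set.range (locToFrac a))) :
    ∃ q : MvPolynomial σ k, eval a q ≠ 0 ∧
      algebraMap _ (FractionRing (MvPolynomial σ k)) q * y ∈
      Submodule.span k' (Set.range (algebraMap (MvPolynomial σ k)
        (FractionRing (MvPolynomial σ k)))) := by
  induction hy using Submodule.span_induction with
  | mem x hx =>
    obtain ⟨z, rfl⟩ := hx
    obtain ⟨p, q, rfl⟩ := IsLocalization.exists_mk'_eq (mIdeal a).primeCompl z
    refine ⟨q, fun h => q.2 ((mem_mIdeal a _).2 h), ?_⟩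
    rw [← locToFrac_algebraMap a, ← map_mul, IsLocalization.mk'_spec', locToFrac_algebraMap]
    exact Submodule.subset_span ⟨_, rfl⟩
  | zero => exact ⟨1, by simp, by simp⟩
  | add x y _ _ ihx ihy =>
    obtain ⟨q, hq, hx⟩ := ihx
    obtain ⟨q', hq', hy⟩ := ihy
    refine ⟨q * q', by rw [map_mul]; exact mul_ne_zero hq hq', ?_⟩
    have e : algebraMap _ (FractionRing (MvPolynomial σ k)) (q * q') * (x + y) =
        algebraMap _ (FractionRing (MvPolynomial σ k)) q' *
          (algebraMap _ (FractionRing (MvPolynomial σ k)) q * x) +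
        algebraMap _ (FractionRing (MvPolynomial σ k)) q *
          (algebraMap _ (FractionRing (MvPolynomial σ k)) q' * y) := by
      rw [map_mul]; ring
    rw [e]
    exact Submodule.add_mem _ (mul_mem_span _ _ _ hx) (mul_mem_span _ _ _ hy)
  | smul c x _ ih =>
    obtain ⟨q, hq, hx⟩ := ih
    exact ⟨q, hq, by rw [mul_smul_comm]; exact Submodule.smul_mem _ _ hx⟩

/-- The field generated by two homogeneous fractions consists of homogeneous fractions. -/
theorem adjoin_le_homFrac
    (hinj : Function.Injective (algebraMap (MvPolynomial σ k) (FractionRing (MvPolynomial σ k))))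
    (c0 c1 : FractionRing (MvPolynomial σ k))
    (h0 : c0 ∈ homFrac σ k _ hinj) (h1 : c1 ∈ homFrac σ k _ hinj) :
    (IntermediateField.adjoin k {c0, c1}).toSubfield ≤ homFrac σ k _ hinj := by
  have hk : ∀ c : k, algebraMap k (FractionRing (MvPolynomial σ k)) c ∈ homFrac σ k _ hinj := by
    intro c
    refine ⟨0, C c, 1, isHomogeneous_C _ _, isHomogeneous_one _ _, one_ne_zero, ?_⟩
    rw [map_one, mul_one, IsScalarTower.algebraMap_apply k (MvPolynomial σ k)]
    rfl
  have h2 : IntermediateField.adjoin k {c0, c1} ≤
      (homFrac σ k (FractionRing (MvPolynomial σ k)) hinj).toIntermediateField hk := by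
    rw [IntermediateField.adjoin_le_iff]
    intro x hx
    rcases hx with rfl | hx
    · exact h0
    · rw [Set.mem_singleton_iff] at hx
      rw [hx]; exact h1
  intro x hx
  exact h2 hx

theorem dichotomy [IsAlgClosed k] [CharZero k] [Finite σ] (hσ : 4 ≤ Nat.card σ)
    {M : Submodule (MvPolynomial σ (PowerSeries k)) (Fin 2 → MvPolynomial σ (PowerSeries k))}
    (hM : Good M)
    (hdeg : ∀ u ∈ M, ∀ v ∈ M, PowerSeries.coeff 0 (rho σ k (wedge u v)) = 0) :
    (∀ u ∈ M, ∀ j, PowerSeries.coeff 0 (rho σ k (u j)) = 0) ∨
    (∃ c : k, ∀ u ∈ M, PowerSeries.coeff 0 (rho σ k (u 1)) =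
      C c * PowerSeries.coeff 0 (rho σ k (u 0))) ∨
    (∀ u ∈ M, PowerSeries.coeff 0 (rho σ k (u 0)) = 0) := by
  classical
  have : Nonempty σ := by
    by_contra hcon
    rw [not_nonempty_iff] at hcon
    rw [Nat.card_of_isEmpty] at hσ
    omega
  by_cases hall : ∀ u ∈ M, ∀ j, PowerSeries.coeff 0 (rho σ k (u j)) = 0
  · exact Or.inl hall
  right
  push Not at hall
  obtain ⟨u0, hu0, j0, hj0⟩ := hall
  -- a homogeneous element
  obtain ⟨d, hd⟩ : ∃ d, homogeneousComponent d (PowerSeries.coeff 0 (rho σ k (u0 j0))) ≠ 0 := by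
    by_contra hcon
    push Not at hcon
    apply hj0
    rw [← sum_homogeneousComponent (PowerSeries.coeff 0 (rho σ k (u0 j0)))]
    exact Finset.sum_eq_zero fun i _ => hcon i
  set us : Fin 2 → MvPolynomial σ (PowerSeries k) := fun j => homogeneousComponent d (u0 j) with hus
  have husM : us ∈ M := hM.hom u0 hu0 d
  have hushom : ∀ j n, (PowerSeries.coeff n (rho σ k (us j))).IsHomogeneous d := fun j n =>
    coeff_rho_isHomogeneous (homogeneousComponent_isHomogeneous _ _) n
  have husne : PowerSeries.coeff 0 (rho σ k (us j0)) ≠ 0 := by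
    rw [hus]
    simp only
    rw [coeff_rho_homogeneousComponent]; exact hd
  set g := PowerSeries.coeff 0 (rho σ k (us 0)) with hg
  set h := PowerSeries.coeff 0 (rho σ k (us 1)) with hh
  set g1 := PowerSeries.coeff 1 (rho σ k (us 0)) with hg1
  set h1 := PowerSeries.coeff 1 (rho σ k (us 1)) with hh1
  have hrel : ∀ u ∈ M, PowerSeries.coeff 0 (rho σ k (u 0)) * h =
      PowerSeries.coeff 0 (rho σ k (u 1)) * g := by
    intro u hu
    have := hdeg u hu us husM
    rw [rho_wedge] at this
    simp only [wedge, map_sub] at this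
    rw [PowerSeries.coeff_zero_eq_constantCoeff_apply,
      PowerSeries.coeff_zero_eq_constantCoeff_apply, map_mul, map_mul, sub_eq_zero] at this
    simpa [hg, hh] using this
  by_cases hg0 : g = 0
  · right
    intro u hu
    have hh0 : h ≠ 0 := by
      fin_cases j0
      · exact absurd hg0 husne
      · exact husne
    have := hrel u hu
    rw [hg0, mul_zero] at this
    exact (mul_eq_zero.1 this).resolve_right hh0
  left
  by_cases hc : ∃ c : k, h = C c * g
  · obtain ⟨c, hc⟩ := hc
    refine ⟨c, fun u hu => ?_⟩
    have := hrel u hu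
    rw [hc] at this
    apply mul_right_cancel₀ hg0
    rw [← this]; ring
  exfalso
  obtain ⟨i, hi⟩ : ∃ i, g * pderiv i h ≠ h * pderiv i g := by
    by_contra hcon
    push Not at hcon
    exact hc (exists_C_mul_of_pderiv hg0 hcon)
  -- degree at least one
  have hd1 : 1 ≤ d := by
    by_contra hcon
    have hd0 : d = 0 := by omega
    subst hd0
    have e1 : g = C (coeff 0 g) := by
      rw [← homogeneousComponent_zero, homogeneousComponent_eq_self (hushom 0 0)]
    have e2 : h = C (coeff 0 h) := by
      rw [← homogeneousComponent_zero, homogeneousComponent_eq_self (hushom 1 0)]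
    apply hi
    rw [e1, e2, pderiv_C, pderiv_C, mul_zero, mul_zero]
  have hinj : Function.Injective
    (algebraMap (MvPolynomial σ k) (FractionRing (MvPolynomial σ k))) :=
      IsFractionRing.injective _ _
  set ι := algebraMap (MvPolynomial σ k) (FractionRing (MvPolynomial σ k)) with hι
  have hgΩ : ι g ≠ 0 := fun h0 => hg0 (hinj (by rw [h0, map_zero]))
  set c0 : FractionRing (MvPolynomial σ k) := ι h / ι g with hc0
  set c1 : FractionRing (MvPolynomial σ k) := (ι g * ι h1 - ι h * ι g1) / ι g ^ 2 with hc1
  set W : FractionRing (MvPolynomial σ k) :=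
    (ι g * ι (pderiv i h) - ι h * ι (pderiv i g)) / ι g ^ 2 with hW
  have hW0 : W ≠ 0 := by
    intro h0
    rw [hW, div_eq_zero_iff] at h0
    rcases h0 with h0 | h0
    · apply hi
      apply hinj
      rw [map_mul, map_mul]
      exact sub_eq_zero.1 h0
    · exact pow_ne_zero 2 hgΩ h0
  let k' : Subfield (FractionRing (MvPolynomial σ k)) :=
    (IntermediateField.adjoin k {c0, c1}).toSubfield
  have hk'hom : k' ≤ homFrac σ k _ hinj := by
    apply adjoin_le_homFrac
    · refine ⟨d, h, g, hushom 1 0, hushom 0 0, hg0, ?_⟩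
      show c0 * ι g = ι h
      rw [hc0]; field_simp
    · refine ⟨d + d, g * h1 - h * g1, g * g, ((hushom 0 0).mul (hushom 1 1)).sub
        ((hushom 1 0).mul (hushom 0 1)), (hushom 0 0).mul (hushom 0 0), mul_ne_zero hg0 hg0, ?_⟩
      show c1 * ι (g * g) = ι (g * h1 - h * g1)
      rw [hc1, map_mul, map_sub, map_mul, map_mul]; field_simp
  have hkk : ∀ c : k, ι (C c) ∈ k' := by
    intro c
    have : ι (C c) = algebraMap k (FractionRing (MvPolynomial σ k)) c := by
      rw [IsScalarTower.algebraMap_apply k (MvPolynomial σ k)]; rfl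
    rw [this]
    exact (IntermediateField.adjoin k {c0, c1}).algebraMap_mem c
  have hc0k : c0 ∈ k' := IntermediateField.subset_adjoin k {c0, c1} (by simp)
  have hc1k : c1 ∈ k' := IntermediateField.subset_adjoin k {c0, c1} (by simp)
  obtain ⟨N0, hN0⟩ := hM.gen
  -- local statement
  have hlocal : ∀ a : σ → k, a ≠ 0 → ∃ q : MvPolynomial σ k, eval a q ≠ 0 ∧
      ι q * W ∈ Submodule.span k' (Set.range ι) := by
    intro a ha
    obtain ⟨A, B, hAB⟩ := hM.fg2 a ha
    obtain ⟨D', hD'⟩ := exists_derivation_localization (S := MvPolynomial σ k) (O := Loc a)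
      (mIdeal a).primeCompl ((pderiv (R := k) i).restrictScalars ℤ)
    have hD'' : ∀ x : MvPolynomial σ k, D' (algebraMap _ (Loc a) x) =
        algebraMap _ (Loc a) (pderiv i x) := hD'
    let _ : Algebra (Loc a) (FractionRing (MvPolynomial σ k)) := (locToFrac a).toAlgebra
    have halg : ∀ x : Loc a, algebraMap (Loc a) (FractionRing (MvPolynomial σ k)) x =
        locToFrac a x := fun _ => rfl
    have hconstmap : ∀ c : k, algebraMap k (Loc a) c = algebraMap (MvPolynomial σ k) (Loc a) (C c) :=
      fun c => by rw [IsScalarTower.algebraMap_apply k (MvPolynomial σ k)]; rfl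
    have hcoef : ∀ n j, PowerSeries.coeff n (vmap a us j) =
        algebraMap (MvPolynomial σ k) (Loc a) (PowerSeries.coeff n (rho σ k (us j))) := fun n j =>
      coeff_rhoA a n (us j)
    have key := local_lemma (O := Loc a) (k := k) (Ω := FractionRing (MvPolynomial σ k))
      (locToFrac_injective a) (residue_const a) D' (by
        intro c
        rw [hconstmap, hD'', pderiv_C, map_zero])
      (Lat M a) A B hAB N0 (X_pow_smul_mem_Lat a hN0) (vmap a us) (vmap_mem_Lat a husM)
      (coeff_zero_wedge_Lat hdeg a) (by
        obtain ⟨u, hu, j, hj⟩ := hM.cond a ha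
        refine ⟨vmap a u, vmap_mem_Lat a hu, j, ?_⟩
        by_contra hcon
        push Not at hcon
        apply hj
        rw [PowerSeries.X_pow_dvd_iff]
        intro n hn
        rw [coeff_eval]
        have hn' : n = 0 ∨ n = 1 := by omega
        rcases hn' with rfl | rfl
        · rw [← algebraMap_mem_maximalIdeal, ← coeff_rhoA]; exact hcon.1
        · rw [← algebraMap_mem_maximalIdeal, ← coeff_rhoA]; exact hcon.2) (by
        intro c e hce h0
        rw [hcoef, hcoef, hconstmap, hconstmap, ← map_mul, ← map_mul, ← map_sub] at h0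
        have h2 : C c * h - C e * g = 0 := algebraMap_loc_injective a (by rw [h0, map_zero])
        by_cases hcz : c = 0
        · rw [hcz, map_zero, zero_mul, zero_sub, neg_eq_zero] at h2
          rcases mul_eq_zero.1 h2 with h3 | h3
          · have h4 : e = 0 := by simpa using h3
            rcases hce with h5 | h5
            · exact h5 hcz
            · exact h5 h4
          · exact hg0 h3
        · apply hc
          refine ⟨c⁻¹ * e, ?_⟩
          have h3 : C c * h = C e * g := sub_eq_zero.1 h2
          have h4 : (C c⁻¹ * C c : MvPolynomial σ k) = 1 := by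
            rw [← map_mul, inv_mul_cancel₀ hcz, map_one]
          calc h = (C c⁻¹ * C c) * h := by rw [h4, one_mul]
            _ = C c⁻¹ * (C c * h) := by ring
            _ = _ := by rw [h3, map_mul]; ring)
      k' (by
        intro c
        rw [halg, hconstmap, locToFrac_algebraMap]; exact hkk c) (by
        rw [halg, halg, hcoef, hcoef, locToFrac_algebraMap, locToFrac_algebraMap]
        exact hc0k) (by
        rw [halg, halg, halg, halg, hcoef, hcoef, hcoef, hcoef, locToFrac_algebraMap,
          locToFrac_algebraMap, locToFrac_algebraMap, locToFrac_algebraMap]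
        exact hc1k)
    rw [halg, halg, halg, halg, hcoef, hcoef, hD'', hD'', locToFrac_algebraMap,
      locToFrac_algebraMap, locToFrac_algebraMap, locToFrac_algebraMap] at key
    exact exists_mul_mem_span a k' W key
  -- the ideal of denominators
  let J : Ideal (MvPolynomial σ k) :=
    { carrier := {q | ι q * W ∈ Submodule.span k' (Set.range ι)}
      add_mem' := by
        intro p q hp hq
        show ι (p + q) * W ∈ Submodule.span k' (Set.range ι)
        rw [map_add, add_mul]; exact Submodule.add_mem _ hp hq
      zero_mem' := by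
        show ι 0 * W ∈ Submodule.span k' (Set.range ι)
        rw [map_zero, zero_mul]; exact Submodule.zero_mem _
      smul_mem' := by
        intro c q hq
        show ι (c * q) * W ∈ Submodule.span k' (Set.range ι)
        rw [map_mul, mul_assoc]; exact mul_mem_span _ _ _ hq }
  obtain ⟨N, hN⟩ := exists_X_pow_mem J (fun a ha => by
    obtain ⟨q, hq, hqW⟩ := hlocal a ha
    exact ⟨q, hqW, hq⟩)
  have hint : ∀ j : σ, IsIntegral k' (ι (X j) * W) := by
    intro j
    refine isIntegral_X_mul hinj k' hk'hom hkk W (g * pderiv i h - h * pderiv i g) (g * g)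
      (d + (d - 1)) ?_ (mul_ne_zero hg0 hg0) ?_ ?_ N (fun j => hN j) j
    · have := (hushom 0 0).mul (hushom 0 0)
      have e : d + (d - 1) + 1 = d + d := by omega
      rw [e]; exact this
    · exact ((hushom 0 0).mul (hushom 1 0).pderiv).sub ((hushom 1 0).mul (hushom 0 0).pderiv)
    · show ι (g * g) * W = ι (g * pderiv i h - h * pderiv i g)
      rw [hW, map_mul, map_sub, map_mul, map_mul]
      field_simp
  have hcard := card_le_three (σ := σ) (k := k) c0 c1 W hW0 k' le_rfl hint
  omega

end

end Pool.Agent.Lib.MPbca609
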