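import Mathlib
import Pool.Agent.Lib.MP_bca609_ag.Heart
import Pool.Agent.Lib.MP_bca609_ag.Step

/-!
The induction.
-/

namespace Pool.Agent.Lib.MPbca609

open MvPolynomial IsLocalRing Matrix

noncomputable section

variable {σ k : Type} [Field k]

theorem coeff_zero_rho_mul (u v : MvPolynomial σ (PowerSeries k)) :
    PowerSeries.coeff 0 (rho σ k (u * v)) =
      PowerSeries.coeff 0 (rho σ k u) * PowerSeries.coeff 0 (rho σ k v) := by
  rw [PowerSeries.coeff_zero_eq_constantCoeff_apply, PowerSeries.coeff_zero_eq_constantCoeff_apply,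
    PowerSeries.coeff_zero_eq_constantCoeff_apply, map_mul, map_mul]

theorem C_X_dvd_of_coeff {u : MvPolynomial σ (PowerSeries k)}
    (h : PowerSeries.coeff 0 (rho σ k u) = 0) : ∃ w, u = C (PowerSeries.X : PowerSeries k) * w := by
  have h1 : C ((PowerSeries.X : PowerSeries k) ^ 1) ∣ u := by
    apply dvd_of_rho
    rw [pow_one, PowerSeries.X_dvd_iff, ← PowerSeries.coeff_zero_eq_constantCoeff_apply, h]
  rw [pow_one] at h1
  exact h1

/-- The conclusion of the main theorem for a graded lattice. -/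
def IsConst (M : Submodule (MvPolynomial σ (PowerSeries k))
    (Fin 2 → MvPolynomial σ (PowerSeries k))) : Prop :=
  ∃ P : Matrix (Fin 2) (Fin 2) (PowerSeries k), P.det ≠ 0 ∧
    ∀ u : Fin 2 → MvPolynomial σ (PowerSeries k),
      (∃ N : ℕ, ∀ i : σ, (X i : MvPolynomial σ (PowerSeries k)) ^ N • u ∈ M) ↔ ∃ w, u = act P w

/-- One step of the induction. -/
theorem isConst_of_pull {M : Submodule (MvPolynomial σ (PowerSeries k))
    (Fin 2 → MvPolynomial σ (PowerSeries k))}
    {P : Matrix (Fin 2) (Fin 2) (PowerSeries k)} (hP : P.det ≠ 0)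
    (hle : ∀ u : Fin 2 → MvPolynomial σ (PowerSeries k),
      (∃ N : ℕ, ∀ i : σ, (X i : MvPolynomial σ (PowerSeries k)) ^ N • u ∈ M) → ∃ v, u = act P v)
    (h : IsConst (pull P M)) : IsConst M := by
  obtain ⟨P', hP', H⟩ := h
  refine ⟨P * P', by rw [Matrix.det_mul]; exact mul_ne_zero hP hP', fun u => ⟨?_, ?_⟩⟩
  · intro hu
    obtain ⟨v, rfl⟩ := hle u hu
    obtain ⟨N, hN⟩ := hu
    obtain ⟨w, rfl⟩ := (H v).1 ⟨N, fun i => by
      rw [mem_pull, map_smul]; exact hN i⟩
    exact ⟨w, (act_mul P P' w).symm⟩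
  · rintro ⟨w, rfl⟩
    obtain ⟨N, hN⟩ := (H (act P' w)).2 ⟨w, rfl⟩
    refine ⟨N, fun i => ?_⟩
    have := hN i
    rw [mem_pull, map_smul] at this
    rw [act_mul]; exact this

theorem main_induction [IsAlgClosed k] [CharZero k] [Finite σ] (hσ : 4 ≤ Nat.card σ) (K : ℕ) :
    ∀ M : Submodule (MvPolynomial σ (PowerSeries k)) (Fin 2 → MvPolynomial σ (PowerSeries k)),
      Good M → (∃ u ∈ M, ∃ v ∈ M,
        ¬ (PowerSeries.X : PowerSeries (MvPolynomial σ k)) ^ (K + 1) ∣ rho σ k (wedge u v)) →
      IsConst M := by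
  have : Nonempty σ := by
    by_contra hcon
    rw [not_nonempty_iff] at hcon
    rw [Nat.card_of_isEmpty] at hσ
    omega
  obtain ⟨i0⟩ := this
  have hbase : ∀ M : Submodule (MvPolynomial σ (PowerSeries k))
      (Fin 2 → MvPolynomial σ (PowerSeries k)), Good M →
      (∃ u ∈ M, ∃ v ∈ M, PowerSeries.coeff 0 (rho σ k (wedge u v)) ≠ 0) → IsConst M := by
    intro M hM hne
    refine ⟨1, by simp, fun u => ⟨fun _ => ⟨u, (act_one u).symm⟩, fun _ => base_case hM hne u⟩⟩
  induction K with
  | zero =>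
    rintro M hM ⟨u, hu, v, hv, h⟩
    refine hbase M hM ⟨u, hu, v, hv, fun h0 => h ?_⟩
    rw [zero_add, pow_one, PowerSeries.X_dvd_iff, ← PowerSeries.coeff_zero_eq_constantCoeff_apply, h0]
  | succ K ih =>
    rintro M hM ⟨u, hu, v, hv, h⟩
    by_cases hdeg : ∀ u ∈ M, ∀ v ∈ M, PowerSeries.coeff 0 (rho σ k (wedge u v)) = 0
    swap
    · push Not at hdeg
      exact hbase M hM hdeg
    -- the general step
    have step : ∀ P : Matrix (Fin 2) (Fin 2) (PowerSeries k), P.det ≠ 0 →
        (PowerSeries.X : PowerSeries k) ∣ P.det →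
        (∀ u : Fin 2 → MvPolynomial σ (PowerSeries k),
          (∃ N : ℕ, ∀ i : σ, (X i : MvPolynomial σ (PowerSeries k)) ^ N • u ∈ M) →
            ∃ v, u = act P v) → IsConst M := by
      intro P hP hXP hle
      have hle' : ∀ u ∈ M, ∃ v, u = act P v := fun u hu => hle u ⟨0, fun i => by simpa using hu⟩
      refine isConst_of_pull hP hle (ih _ (hM.pull hP hle') ?_)
      obtain ⟨u', rfl⟩ := hle' u hu
      obtain ⟨v', rfl⟩ := hle' v hv
      refine ⟨u', hu, v', hv, fun hdvd => h ?_⟩
      rw [wedge_act, map_mul, pow_succ, mul_comm]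
      refine mul_dvd_mul ?_ hdvd
      rw [rho_C]
      obtain ⟨c, hc⟩ := hXP
      rw [hc, map_mul, PowerSeries.map_X]
      exact dvd_mul_right _ _
    -- a coefficient identity valid on `M` is valid on the saturation
    have hXne : ∀ N : ℕ, PowerSeries.coeff 0 (rho σ k (X i0 ^ N)) ≠ 0 := by
      intro N
      rw [map_pow, rho_X]
      simp [PowerSeries.coeff_zero_eq_constantCoeff_apply, X_ne_zero]
    rcases dichotomy hσ hM hdeg with h1 | ⟨c, h1⟩ | h1
    · refine step !![PowerSeries.X, 0; 0, PowerSeries.X] ?_ ?_ ?_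
      · rw [Matrix.det_fin_two_of]; simp [PowerSeries.X_ne_zero]
      · rw [Matrix.det_fin_two_of]; simp
      · rintro w ⟨N, hN⟩
        have h2 : ∀ j, PowerSeries.coeff 0 (rho σ k (w j)) = 0 := by
          intro j
          have := h1 _ (hN i0) j
          rw [Pi.smul_apply, smul_eq_mul, coeff_zero_rho_mul] at this
          exact (mul_eq_zero.1 this).resolve_left (hXne N)
        choose w' hw' using fun j => C_X_dvd_of_coeff (h2 j)
        refine ⟨w', ?_⟩
        ext1 i
        rw [act_apply, hw' i]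
        fin_cases i <;> simp
    · refine step !![1, 0; PowerSeries.C c, PowerSeries.X] ?_ ?_ ?_
      · rw [Matrix.det_fin_two_of]; simp [PowerSeries.X_ne_zero]
      · rw [Matrix.det_fin_two_of]; simp
      · rintro w ⟨N, hN⟩
        have h2 : PowerSeries.coeff 0 (rho σ k (w 1 - C (PowerSeries.C c) * w 0)) = 0 := by
          have := h1 _ (hN i0)
          rw [Pi.smul_apply, Pi.smul_apply, smul_eq_mul, smul_eq_mul, coeff_zero_rho_mul,
            coeff_zero_rho_mul] at this
          have h3 : PowerSeries.coeff 0 (rho σ k (w 1)) =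
              C c * PowerSeries.coeff 0 (rho σ k (w 0)) := by
            apply mul_left_cancel₀ (hXne N)
            rw [this]; ring
          rw [map_sub, map_sub, coeff_zero_rho_mul, h3, rho_C]
          simp
        obtain ⟨w', hw'⟩ := C_X_dvd_of_coeff h2
        refine ⟨![w 0, w'], ?_⟩
        ext1 i
        rw [act_apply]
        fin_cases i
        · simp
        · simp only [Fin.mk_one, Matrix.of_apply, Matrix.cons_val', Matrix.cons_val_zero,
            Matrix.cons_val_one, Matrix.cons_val_fin_one]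
          rw [← hw']; ring
    · refine step !![PowerSeries.X, 0; 0, 1] ?_ ?_ ?_
      · rw [Matrix.det_fin_two_of]; simp [PowerSeries.X_ne_zero]
      · rw [Matrix.det_fin_two_of]; simp
      · rintro w ⟨N, hN⟩
        have h2 : PowerSeries.coeff 0 (rho σ k (w 0)) = 0 := by
          have := h1 _ (hN i0)
          rw [Pi.smul_apply, smul_eq_mul, coeff_zero_rho_mul] at this
          exact (mul_eq_zero.1 this).resolve_left (hXne N)
        obtain ⟨w', hw'⟩ := C_X_dvd_of_coeff h2
        refine ⟨![w', w 1], ?_⟩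
        ext1 i
        rw [act_apply]
        fin_cases i
        · simp [hw']
        · simp

/-- The main theorem for good lattices. -/
theorem isConst_of_good [IsAlgClosed k] [CharZero k] [Finite σ] (hσ : 4 ≤ Nat.card σ)
    {M : Submodule (MvPolynomial σ (PowerSeries k)) (Fin 2 → MvPolynomial σ (PowerSeries k))}
    (hM : Good M) : IsConst M := by
  obtain ⟨N, hN⟩ := hM.gen
  refine main_induction hσ (2 * N) M hM ⟨_, hN (Pi.single 0 1), _, hN (Pi.single 1 1), ?_⟩
  intro hdvd
  have h1 : wedge ((C ((PowerSeries.X : PowerSeries k) ^ N) : MvPolynomial σ (PowerSeries k)) •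
      (Pi.single 0 1 : Fin 2 → MvPolynomial σ (PowerSeries k)))
      ((C ((PowerSeries.X : PowerSeries k) ^ N) : MvPolynomial σ (PowerSeries k)) •
      (Pi.single 1 1 : Fin 2 → MvPolynomial σ (PowerSeries k))) =
      C ((PowerSeries.X : PowerSeries k) ^ (2 * N)) := by
    simp [wedge, two_mul, pow_add]
  rw [h1, rho_C_X_pow] at hdvd
  obtain ⟨c, hc⟩ := hdvd
  have h2 : (PowerSeries.X : PowerSeries (MvPolynomial σ k)) ^ (2 * N) ≠ 0 :=
    pow_ne_zero _ PowerSeries.X_ne_zero
  have h3 : (1 : PowerSeries (MvPolynomial σ k)) = PowerSeries.X * c := by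
    apply mul_left_cancel₀ h2
    rw [mul_one]
    conv_lhs => rw [hc]
    rw [pow_succ]; ring
  have h4 := congrArg PowerSeries.constantCoeff h3
  simp at h4

end

end Pool.Agent.Lib.MPbca609
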