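import Mathlib

/-!
From a projective localization to a lattice generated by two elements over a local ring.
-/

namespace Pool.Agent.Lib.MPbca609

/-- A free submodule of rank at most two of `𝓞 ^ 2` is spanned by two elements. -/
theorem exists_pair_of_projective {𝓞 : Type} [CommRing 𝓞] [IsDomain 𝓞] [IsLocalRing 𝓞]
    (L : Submodule 𝓞 (Fin 2 → 𝓞)) [Module.Finite 𝓞 L] [Module.Projective 𝓞 L] :
    ∃ A B : Fin 2 → 𝓞, L = Submodule.span 𝓞 {A, B} := by
  classical
  have hfree : Module.Free 𝓞 L := Module.free_of_flat_of_isLocalRing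
  have hr : Module.finrank 𝓞 L ≤ 2 := by
    have := Submodule.finrank_le L
    simpa using this
  let b := Module.finBasis 𝓞 L
  let A : Fin 2 → 𝓞 := if h : 0 < Module.finrank 𝓞 L then (b ⟨0, h⟩ : Fin 2 → 𝓞) else 0
  let B : Fin 2 → 𝓞 := if h : 1 < Module.finrank 𝓞 L then (b ⟨1, h⟩ : Fin 2 → 𝓞) else 0
  refine ⟨A, B, le_antisymm ?_ ?_⟩
  · intro u hu
    have h1 := b.sum_repr ⟨u, hu⟩
    have h2 : u = ∑ i, b.repr ⟨u, hu⟩ i • (b i : Fin 2 → 𝓞) := by
      have h3 : ((∑ i, b.repr ⟨u, hu⟩ i • b i : L) : Fin 2 → 𝓞) = u := by rw [h1]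
      rw [Submodule.coe_sum] at h3
      exact h3.symm
    rw [h2]
    refine Submodule.sum_mem _ fun i _ => Submodule.smul_mem _ _ ?_
    have hi : (i : ℕ) = 0 ∨ (i : ℕ) = 1 := by omega
    rcases hi with hi | hi
    · have h3 : A = (b i : Fin 2 → 𝓞) := by
        have h4 : 0 < Module.finrank 𝓞 L := by omega
        simp only [A, dif_pos h4]
        congr 2
        exact Fin.ext hi.symm
      exact Submodule.subset_span (by rw [h3]; simp)
    · have h3 : B = (b i : Fin 2 → 𝓞) := by
        have h4 : 1 < Module.finrank 𝓞 L := by omega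
        simp only [B, dif_pos h4]
        congr 2
        exact Fin.ext hi.symm
      exact Submodule.subset_span (by rw [h3]; simp)
  · rw [Submodule.span_le]
    intro x hx
    rcases hx with rfl | hx
    · simp only [A]
      split_ifs
      · exact (b _).2
      · exact L.zero_mem
    · rw [Set.mem_singleton_iff] at hx
      rw [hx]
      simp only [B]
      split_ifs
      · exact (b _).2
      · exact L.zero_mem

theorem exists_pair_of_localized {R 𝓞 : Type} [CommRing R] [CommRing 𝓞] [IsDomain 𝓞]
    [IsLocalRing 𝓞] [Algebra R 𝓞] (x : R) (hx : IsUnit (algebraMap R 𝓞 x))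
    (M : Submodule R (Fin 2 → R)) [Module.Finite R M] (t : R) (ht : algebraMap R 𝓞 t ≠ 0)
    (htM : ∀ u : Fin 2 → R, t • u ∈ M)
    (hproj : Module.Projective (Localization.Away x) (LocalizedModule (Submonoid.powers x) M)) :
    ∃ A B : Fin 2 → 𝓞,
      Submodule.span 𝓞 ((fun (u : Fin 2 → R) (j : Fin 2) => algebraMap R 𝓞 (u j)) '' M) =
        Submodule.span 𝓞 {A, B} := by
  classical
  set L : Submodule 𝓞 (Fin 2 → 𝓞) :=
    Submodule.span 𝓞 ((fun (u : Fin 2 → R) (j : Fin 2) => algebraMap R 𝓞 (u j)) '' M) with hL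
  let A := Localization.Away x
  let φ : A →+* 𝓞 := IsLocalization.Away.lift x hx
  let _ : Algebra A 𝓞 := φ.toAlgebra
  have hφ : ∀ r : R, algebraMap A 𝓞 (algebraMap R A r) = algebraMap R 𝓞 r := fun r =>
    IsLocalization.Away.lift_eq x hx r
  have : IsScalarTower R A 𝓞 := IsScalarTower.of_algebraMap_eq fun r => (hφ r).symm
  have : Module.Finite A (LocalizedModule (Submonoid.powers x) M) :=
    Module.Finite.of_isLocalizedModule (Submonoid.powers x)
      (LocalizedModule.mkLinearMap (Submonoid.powers x) M)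
  obtain ⟨n, f, g, hf, hg, hfg⟩ :=
    Module.Finite.exists_comp_eq_id_of_projective A (LocalizedModule (Submonoid.powers x) M)
  let ev : M →ₗ[R] (Fin 2 → 𝓞) :=
    { toFun := fun u j => algebraMap R 𝓞 (u.1 j)
      map_add' := fun u v => by ext1 j; simp
      map_smul' := fun c u => by
        ext1 j
        simp only [SetLike.val_smul, Pi.smul_apply, smul_eq_mul, map_mul, RingHom.id_apply]
        rw [Algebra.smul_def] }
  have hpow : ∀ s : Submonoid.powers x, IsUnit (algebraMap R 𝓞 s) := by
    rintro ⟨s, m, rfl⟩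
    simpa using hx.pow m
  have hunit : ∀ s : Submonoid.powers x, IsUnit (algebraMap R (Module.End R (Fin 2 → 𝓞)) s) := by
    intro s
    obtain ⟨y, hy⟩ := (hpow s).exists_right_inv
    rw [Module.End.isUnit_iff]
    constructor
    · intro u v huv
      ext1 j
      have h1 := congrFun huv j
      simp only [Module.algebraMap_end_apply, Pi.smul_apply] at h1
      rw [Algebra.smul_def, Algebra.smul_def] at h1
      exact (hpow s).mul_left_cancel h1
    · intro u
      refine ⟨y • u, ?_⟩
      ext1 j
      simp only [Module.algebraMap_end_apply, Pi.smul_apply]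
      rw [Algebra.smul_def, smul_eq_mul, ← mul_assoc, hy, one_mul]
  let ψ : LocalizedModule (Submonoid.powers x) M →ₗ[R] (Fin 2 → 𝓞) :=
    LocalizedModule.lift (Submonoid.powers x) ev hunit
  let ψA : LocalizedModule (Submonoid.powers x) M →ₗ[A] (Fin 2 → 𝓞) :=
    ψ.extendScalarsOfIsLocalization (Submonoid.powers x) A
  let mk : M →ₗ[R] LocalizedModule (Submonoid.powers x) M :=
    LocalizedModule.mkLinearMap (Submonoid.powers x) M
  have hψmk : ∀ m : M, ψA (mk m) = ev m := fun m =>
    LinearMap.congr_fun (LocalizedModule.lift_comp (Submonoid.powers x) ev hunit) m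
  let v : Fin n → (Fin 2 → 𝓞) := fun l => ψA (f (Pi.single l 1))
  have hevL : ∀ m : M, ev m ∈ L := fun m => Submodule.subset_span ⟨m.1, m.2, rfl⟩
  have hvL : ∀ l, v l ∈ L := by
    intro l
    have hgen : ∀ p : LocalizedModule (Submonoid.powers x) M, ψA p ∈ L := by
      intro p
      obtain ⟨⟨m, s⟩, hms⟩ := IsLocalizedModule.surj (Submonoid.powers x) mk p
      obtain ⟨y, hy⟩ := (hpow s).exists_right_inv
      have h1 : (s : R) • ψA p = ev m := by
        rw [← hψmk m]
        have h2 := congrArg ψ hms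
        have h3 : ψ (s • p) = (s : R) • ψ p := by
          have : s • p = (s : R) • p := rfl
          rw [this, map_smul]
        rw [h3] at h2
        exact h2
      have h4 : ψA p = y • ev m := by
        rw [← h1]
        ext1 j
        simp only [Pi.smul_apply, smul_eq_mul]
        rw [Algebra.smul_def, ← mul_assoc, mul_comm y, hy, one_mul]
      rw [h4]
      exact L.smul_mem _ (hevL m)
    exact hgen _
  let gm : M → Fin n → 𝓞 := fun m l => algebraMap A 𝓞 (g (mk m) l)
  have hgm_add : ∀ m m' l, gm (m + m') l = gm m l + gm m' l := fun m m' l => by simp [gm]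
  have hgm_smul : ∀ (c : R) m l, gm (c • m) l = algebraMap R 𝓞 c * gm m l := fun c m l => by
    simp only [gm, map_smul]
    have : g (c • mk m) = c • g (mk m) := by
      rw [← algebraMap_smul A c (mk m), map_smul, algebraMap_smul]
    rw [this, Pi.smul_apply, Algebra.smul_def, map_mul, hφ]
  have hev : ∀ m : M, ev m = ∑ l, gm m l • v l := by
    intro m
    have h1 : f (g (mk m)) = mk m := LinearMap.congr_fun hfg (mk m)
    have h2 : f (g (mk m)) = ∑ l, g (mk m) l • f (Pi.single l 1) := by
      conv_lhs => rw [LinearMap.pi_apply_eq_sum_univ f (g (mk m))]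
      refine Finset.sum_congr rfl fun l _ => ?_
      congr 2
      ext i
      by_cases hil : l = i
      · subst hil; simp
      · simp [hil, Ne.symm hil]
    rw [← hψmk m, ← h1, h2, map_sum]
    refine Finset.sum_congr rfl fun l _ => ?_
    rw [map_smul]
    ext1 j
    simp only [Pi.smul_apply, smul_eq_mul, gm, v]
    rw [Algebra.smul_def]
  let m0 : M := ⟨t • Pi.single 0 1, htM _⟩
  let m1 : M := ⟨t • Pi.single 1 1, htM _⟩
  set τ : 𝓞 := algebraMap R 𝓞 t with hτ
  have hkey : ∀ (m : M) l, τ * gm m l =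
      algebraMap R 𝓞 (m.1 0) * gm m0 l + algebraMap R 𝓞 (m.1 1) * gm m1 l := by
    intro m l
    rw [hτ, ← hgm_smul, ← hgm_smul, ← hgm_smul, ← hgm_add]
    congr 1
    ext j
    fin_cases j <;> simp [m0, m1, mul_comm]
  have hdvd : ∀ u ∈ L, ∀ l, τ ∣ u 0 * gm m0 l + u 1 * gm m1 l := by
    intro u hu
    rw [hL] at hu
    induction hu using Submodule.span_induction with
    | mem u hu =>
      obtain ⟨m, hm, rfl⟩ := hu
      intro l
      exact ⟨gm ⟨m, hm⟩ l, (hkey ⟨m, hm⟩ l).symm⟩
    | zero => intro l; simp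
    | add u u' _ _ ihu ihu' =>
      intro l
      have e : (u + u') 0 * gm m0 l + (u + u') 1 * gm m1 l =
          (u 0 * gm m0 l + u 1 * gm m1 l) + (u' 0 * gm m0 l + u' 1 * gm m1 l) := by
        simp only [Pi.add_apply]; ring
      rw [e]
      exact dvd_add (ihu l) (ihu' l)
    | smul c u _ ih =>
      intro l
      have e : (c • u) 0 * gm m0 l + (c • u) 1 * gm m1 l =
          c * (u 0 * gm m0 l + u 1 * gm m1 l) := by
        simp only [Pi.smul_apply, smul_eq_mul]; ring
      rw [e]
      exact (ih l).mul_left _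
  choose G hG using fun (u : L) (l : Fin n) => hdvd u.1 u.2 l
  let Gl : L →ₗ[𝓞] (Fin n → 𝓞) :=
    { toFun := G
      map_add' := fun u u' => by
        ext1 l
        apply mul_left_cancel₀ ht
        rw [Pi.add_apply, mul_add, ← hG, ← hG, ← hG]
        simp only [Submodule.coe_add, Pi.add_apply]; ring
      map_smul' := fun c u => by
        ext1 l
        apply mul_left_cancel₀ ht
        rw [Pi.smul_apply, RingHom.id_apply, smul_eq_mul, mul_left_comm, ← hG, ← hG]
        simp only [SetLike.val_smul, Pi.smul_apply, smul_eq_mul]; ring }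
  let π : (Fin n → 𝓞) →ₗ[𝓞] L :=
    { toFun := fun c => ⟨∑ l, c l • v l, L.sum_mem fun l _ => L.smul_mem _ (hvL l)⟩
      map_add' := fun c c' => by
        ext1
        simp [add_smul, Finset.sum_add_distrib]
      map_smul' := fun r c => by
        ext1
        simp [Finset.smul_sum, smul_smul] }
  have hid : π ∘ₗ Gl = LinearMap.id := by
    ext u j
    apply mul_left_cancel₀ ht
    show τ * (∑ l, G u l • v l) j = τ * u.1 j
    have h0 : ∀ j, ev m0 j = ∑ l, gm m0 l * v l j := fun j => by
      rw [hev m0]; simp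
    have h1 : ∀ j, ev m1 j = ∑ l, gm m1 l * v l j := fun j => by
      rw [hev m1]; simp
    have h2 : τ * (∑ l, G u l • v l) j =
        u.1 0 * (∑ l, gm m0 l * v l j) + u.1 1 * (∑ l, gm m1 l * v l j) := by
      rw [Finset.sum_apply, Finset.mul_sum, Finset.mul_sum, Finset.mul_sum,
        ← Finset.sum_add_distrib]
      refine Finset.sum_congr rfl fun l _ => ?_
      simp only [Pi.smul_apply, smul_eq_mul]
      rw [← mul_assoc, ← hG]; ring
    rw [h2, ← h0, ← h1]
    have h3 : ∀ j, ev m0 j = τ * (Pi.single 0 1 : Fin 2 → 𝓞) j := by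
      intro j
      fin_cases j <;> simp [ev, m0, hτ]
    have h4 : ∀ j, ev m1 j = τ * (Pi.single 1 1 : Fin 2 → 𝓞) j := by
      intro j
      fin_cases j <;> simp [ev, m1, hτ]
    rw [h3, h4]
    fin_cases j <;> simp <;> ring
  have : Module.Projective 𝓞 L := Module.Projective.of_split Gl π hid
  have : Module.Finite 𝓞 L := Module.Finite.of_surjective π (fun u =>
    ⟨Gl u, LinearMap.congr_fun hid u⟩)
  exact exists_pair_of_projective L

end Pool.Agent.Lib.MPbca609
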